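import Mathlib

set_option autoImplicit false

open Finset

namespace Pool.Agent.Work.MP_2da030_co


section P
variable {α : Type*} [DecidableEq α]

/-- The product condition. -/
def PC (X : Finset α) (k : ℕ) (g1 g2 : α → ZMod 3) : Prop :=
  ∃ c1 c2 : ZMod 3, ∀ T ⊆ X, T.card = k → ((∑ x ∈ T, g1 x) + c1) * ((∑ x ∈ T, g2 x) + c2) = 0

omit [DecidableEq α] in
lemma PC.symm {X : Finset α} {k : ℕ} {g1 g2 : α → ZMod 3} (h : PC X k g1 g2) : PC X k g2 g1 := by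
  obtain ⟨c1, c2, h⟩ := h
  exact ⟨c2, c1, fun T hT hk => by rw [mul_comm]; exact h T hT hk⟩

lemma P1 {X : Finset α} {k : ℕ} {g1 g2 : α → ZMod 3} (h : PC X k g1 g2) (hk : 2 ≤ k)
    (hX : k + 2 ≤ X.card) {p q r s : α} (hp : p ∈ X) (hq : q ∈ X) (hr : r ∈ X) (hs : s ∈ X)
    (hpq : p ≠ q) (hpr : p ≠ r) (hps : p ≠ s) (hqr : q ≠ r) (hqs : q ≠ s) (hrs : r ≠ s) :
    (g1 q - g1 p) * (g2 s - g2 r) + (g1 s - g1 r) * (g2 q - g2 p) = 0 := by
  obtain ⟨c1, c2, h⟩ := h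
  have hc : ({p, q, r, s} : Finset α).card = 4 := by
    rw [card_insert_of_notMem, card_insert_of_notMem, card_insert_of_notMem, card_singleton]
    · simp [hrs]
    · simp [hqr, hqs]
    · simp [hpq, hpr, hps]
  have hsub : ({p, q, r, s} : Finset α) ⊆ X := by
    intro x hx
    simp only [mem_insert, mem_singleton] at hx
    rcases hx with rfl | rfl | rfl | rfl <;> assumption
  have hcard : k - 2 ≤ (X \ {p, q, r, s}).card := by
    rw [card_sdiff_of_subset hsub, hc]; omega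
  obtain ⟨T, hT, hTc⟩ := exists_subset_card_eq hcard
  have key : ∀ a b : α, a ∈ ({p, q} : Finset α) → b ∈ ({r, s} : Finset α) →
      ((∑ x ∈ T, g1 x) + g1 a + g1 b + c1) * ((∑ x ∈ T, g2 x) + g2 a + g2 b + c2) = 0 := by
    intro a b ha hb
    have haX : a ∈ X := by
      simp only [mem_insert, mem_singleton] at ha
      rcases ha with rfl | rfl <;> assumption
    have hbX : b ∈ X := by
      simp only [mem_insert, mem_singleton] at hb
      rcases hb with rfl | rfl <;> assumption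
    have haT : a ∉ T := by
      intro hh
      have := hT hh
      simp only [mem_insert, mem_singleton, mem_sdiff, not_or] at ha this
      tauto
    have hbT : b ∉ T := by
      intro hh
      have := hT hh
      simp only [mem_insert, mem_singleton, mem_sdiff, not_or] at hb this
      tauto
    have hab : a ≠ b := by
      simp only [mem_insert, mem_singleton] at ha hb
      rintro rfl
      rcases ha with rfl | rfl <;> rcases hb with h1 | h1 <;> tauto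
    have hbi : b ∉ insert a T := by
      simp only [mem_insert, not_or]
      exact ⟨hab.symm, hbT⟩
    have h1 := h (insert b (insert a T)) ?_ ?_
    · rw [sum_insert hbi, sum_insert haT, sum_insert hbi, sum_insert haT] at h1
      rw [← h1]; ring
    · intro x hx
      simp only [mem_insert] at hx
      rcases hx with rfl | rfl | hx
      · exact hbX
      · exact haX
      · exact (mem_sdiff.1 (hT hx)).1
    · rw [card_insert_of_notMem hbi, card_insert_of_notMem haT, hTc]; omega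
  have e1 := key p r (by simp) (by simp)
  have e2 := key q r (by simp) (by simp)
  have e3 := key p s (by simp) (by simp)
  have e4 := key q s (by simp) (by simp)
  linear_combination e4 - e2 - e3 + e1

lemma P3 {X : Finset α} {k : ℕ} {g1 g2 : α → ZMod 3} (h : PC X k g1 g2) (hk : 2 ≤ k)
    (hX : k + 2 ≤ X.card) {u z r s : α} (hu : u ∈ X) (hz : z ∈ X) (hr : r ∈ X) (hs : s ∈ X)
    (hur : u ≠ r) (hus : u ≠ s) (hzr : z ≠ r) (hzs : z ≠ s) (huz : g1 u ≠ g1 z)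
    (hrs : g1 r = g1 s) : g2 r = g2 s := by
  by_cases hrs' : r = s
  · rw [hrs']
  have huz' : u ≠ z := by rintro rfl; exact huz rfl
  have := P1 h hk hX hu hz hr hs huz' hur hus hzr hzs hrs'
  rw [hrs, sub_self, zero_mul, add_zero, mul_eq_zero] at this
  rcases this with h1 | h1
  · exact absurd (sub_eq_zero.1 h1).symm huz
  · exact (sub_eq_zero.1 h1).symm

lemma three_aux : ∀ a1 a2 a3 b1 b2 b3 : ZMod 3, a1 ≠ 0 → a2 ≠ 0 → a3 ≠ 0 →
    a1 * b2 + a2 * b1 = 0 → a1 * b3 + a3 * b1 = 0 → a2 * b3 + a3 * b2 = 0 →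
    b1 = 0 ∧ b2 = 0 ∧ b3 = 0 := by
  decide

omit [DecidableEq α] in
lemma split4 {a b r s : α} (h : ¬ (a ≠ r ∧ a ≠ s ∧ b ≠ r ∧ b ≠ s)) :
    (a = r ∨ b = r) ∨ (a = s ∨ b = s) := by
  tauto

omit [DecidableEq α] in
lemma pig2 {a b a' b' r : α} (h : a = r ∨ b = r) (h' : a' = r ∨ b' = r) (h1 : a ≠ a')
    (h2 : a ≠ b') (h3 : b ≠ a') (h4 : b ≠ b') : False := by
  rcases h with rfl | rfl <;> rcases h' with h' | h'
  · exact h1 h'.symm
  · exact h2 h'.symm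
  · exact h3 h'.symm
  · exact h4 h'.symm

lemma P2 {X : Finset α} {k : ℕ} {g1 g2 : α → ZMod 3} (h : PC X k g1 g2) (hk : 2 ≤ k)
    (hX : k + 2 ≤ X.card) (c : ZMod 3) (h1 : 3 ≤ (X.filter (fun x => g1 x = c)).card)
    (h2 : 3 ≤ (X.filter (fun x => g1 x ≠ c)).card) {r s : α} (hr : r ∈ X) (hs : s ∈ X) :
    g2 r = g2 s := by
  obtain ⟨a1, ha1, a2, ha2, a3, ha3, ha12, ha13, ha23⟩ := two_lt_card.1 h1
  obtain ⟨b1, hb1, b2, hb2, b3, hb3, hb12, hb13, hb23⟩ := two_lt_card.1 h2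
  simp only [mem_filter] at ha1 ha2 ha3 hb1 hb2 hb3
  have hne : ∀ a b : α, g1 a = c → g1 b ≠ c → a ≠ b := by
    rintro a b h1 h2 rfl; exact h2 h1
  have e12 := P1 h hk hX ha1.1 hb1.1 ha2.1 hb2.1 (hne _ _ ha1.2 hb1.2) ha12 (hne _ _ ha1.2 hb2.2)
    (hne _ _ ha2.2 hb1.2).symm hb12 (hne _ _ ha2.2 hb2.2)
  have e13 := P1 h hk hX ha1.1 hb1.1 ha3.1 hb3.1 (hne _ _ ha1.2 hb1.2) ha13 (hne _ _ ha1.2 hb3.2)
    (hne _ _ ha3.2 hb1.2).symm hb13 (hne _ _ ha3.2 hb3.2)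
  have e23 := P1 h hk hX ha2.1 hb2.1 ha3.1 hb3.1 (hne _ _ ha2.2 hb2.2) ha23 (hne _ _ ha2.2 hb3.2)
    (hne _ _ ha3.2 hb2.2).symm hb23 (hne _ _ ha3.2 hb3.2)
  have z1 : g1 b1 - g1 a1 ≠ 0 := by rw [ha1.2, sub_ne_zero]; exact hb1.2
  have z2 : g1 b2 - g1 a2 ≠ 0 := by rw [ha2.2, sub_ne_zero]; exact hb2.2
  have z3 : g1 b3 - g1 a3 ≠ 0 := by rw [ha3.2, sub_ne_zero]; exact hb3.2
  obtain ⟨y1, y2, y3⟩ := three_aux _ _ _ _ _ _ z1 z2 z3 e12 e13 e23
  by_cases hrs : r = s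
  · rw [hrs]
  -- for a pair avoiding `r`, `s`
  have key : ∀ a b : α, a ∈ X → b ∈ X → a ≠ b → g1 b - g1 a ≠ 0 → g2 b - g2 a = 0 →
      a ≠ r → a ≠ s → b ≠ r → b ≠ s → g2 r = g2 s := by
    intro a b ha hb hab hd hd2 h1 h2 h3 h4
    have := P1 h hk hX ha hb hr hs hab h1 h2 h3 h4 hrs
    rw [hd2, mul_zero, add_zero, mul_eq_zero] at this
    rcases this with h5 | h5
    · exact absurd h5 hd
    · exact (sub_eq_zero.1 h5).symm
  by_cases c1 : a1 ≠ r ∧ a1 ≠ s ∧ b1 ≠ r ∧ b1 ≠ s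
  · exact key a1 b1 ha1.1 hb1.1 (hne _ _ ha1.2 hb1.2) z1 y1 c1.1 c1.2.1 c1.2.2.1 c1.2.2.2
  by_cases c2 : a2 ≠ r ∧ a2 ≠ s ∧ b2 ≠ r ∧ b2 ≠ s
  · exact key a2 b2 ha2.1 hb2.1 (hne _ _ ha2.2 hb2.2) z2 y2 c2.1 c2.2.1 c2.2.2.1 c2.2.2.2
  by_cases c3 : a3 ≠ r ∧ a3 ≠ s ∧ b3 ≠ r ∧ b3 ≠ s
  · exact key a3 b3 ha3.1 hb3.1 (hne _ _ ha3.2 hb3.2) z3 y3 c3.1 c3.2.1 c3.2.2.1 c3.2.2.2
  exfalso
  have n12 := hne _ _ ha1.2 hb2.2
  have n13 := hne _ _ ha1.2 hb3.2
  have n21 := hne _ _ ha2.2 hb1.2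
  have n23 := hne _ _ ha2.2 hb3.2
  have n31 := hne _ _ ha3.2 hb1.2
  have n32 := hne _ _ ha3.2 hb2.2
  have d1 := split4 c1
  have d2 := split4 c2
  have d3 := split4 c3
  rcases d1 with d1 | d1 <;> rcases d2 with d2 | d2 <;> rcases d3 with d3 | d3 <;>
    first
      | exact pig2 d1 d2 ha12 n12 n21.symm hb12
      | exact pig2 d1 d3 ha13 n13 n31.symm hb13
      | exact pig2 d2 d3 ha23 n23 n32.symm hb23

end P

end Pool.Agent.Work.MP_2da030_co
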