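import Pool.Agent.Work.MP_2da030_co.A

set_option autoImplicit false

open Finset

namespace Pool.Agent.Work.MP_2da030_co

section S
variable {α : Type*}

/-- Difference of two rows. -/
def gd (c : α → α → ZMod 3) (p q u : α) : ZMod 3 := c q u - c p u

/-- Curvature of two pairs. -/
def kap (c : α → α → ZMod 3) (p q r s : α) : ZMod 3 := gd c p q s - gd c p q r

lemma kap_symm {c : α → α → ZMod 3} (hc : ∀ x y, c x y = c y x) (p q r s : α) :
    kap c p q r s = kap c r s p q := by
  simp only [kap, gd]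
  rw [hc q s, hc p s, hc q r, hc p r]
  ring

lemma kap_swap (c : α → α → ZMod 3) (p q r s : α) : kap c p q s r = - kap c p q r s := by
  simp only [kap]; ring

lemma kap_zero_swap {c : α → α → ZMod 3} {p q r s : α} (h : kap c p q r s = 0) :
    kap c p q s r = 0 := by
  rw [kap_swap, h, neg_zero]

/-- All quadruples in `W` are flat. -/
def FF (c : α → α → ZMod 3) (W : Finset α) : Prop :=
  ∀ p ∈ W, ∀ q ∈ W, ∀ r ∈ W, ∀ s ∈ W, p ≠ q → p ≠ r → p ≠ s → q ≠ r → q ≠ s → r ≠ s →
    kap c p q r s = 0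

lemma two_two (x : ZMod 3) : 2 * (2 * x) = x := by
  revert x; decide

lemma flat_of_FF [DecidableEq α] {c : α → α → ZMod 3} (hc : ∀ x y, c x y = c y x) {W : Finset α}
    (h : FF c W) (hW : 3 ≤ W.card) :
    ∃ a : α → ZMod 3, ∀ x ∈ W, ∀ y ∈ W, x ≠ y → c x y = a x + a y := by
  obtain ⟨p, hp, q, hq, r, hr, hpq, hpr, hqr⟩ := two_lt_card.1 hW
  obtain ⟨K, hK⟩ : ∃ K, K = c p q + c p r - c q r := ⟨_, rfl⟩
  have hq' : ∀ x ∈ W, x ≠ p → x ≠ q → x ≠ r → c q x = c p q + c p x - K := by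
    intro x hx h1 h2 h3
    have := h q hq p hp x hx r hr hpq.symm (Ne.symm h2) hqr (Ne.symm h1) hpr h3
    simp only [kap, gd] at this
    rw [hK]; linear_combination this
  have hr' : ∀ x ∈ W, x ≠ p → x ≠ q → x ≠ r → c r x = c p r + c p x - K := by
    intro x hx h1 h2 h3
    have := h r hr p hp x hx q hq hpr.symm (Ne.symm h3) hqr.symm (Ne.symm h1) hpq h2
    simp only [kap, gd] at this
    rw [hK]; rw [hc r q] at this; linear_combination this
  have key : ∀ x ∈ W, ∀ y ∈ W, x ≠ p → y ≠ p → x ≠ y → c x y = c p x + c p y - K := by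
    intro x hx y hy hxp hyp hxy
    by_cases hxq : x = q
    · subst hxq
      by_cases hyr : y = r
      · subst hyr; rw [hK]; ring
      · exact hq' y hy hyp (Ne.symm hxy) hyr
    by_cases hxr : x = r
    · subst hxr
      by_cases hyq : y = q
      · subst hyq; rw [hK, hc x y]; ring
      · exact hr' y hy hyp hyq (Ne.symm hxy)
    by_cases hyq : y = q
    · subst hyq
      rw [hc x y, hq' x hx hxp hxq hxr]; ring
    by_cases hyr : y = r
    · subst hyr
      rw [hc x y, hr' x hx hxp hxq hxr]; ring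
    have := h x hx p hp y hy q hq hxp hxy hxq (Ne.symm hyp) hpq hyq
    simp only [kap, gd] at this
    have h2 := hq' x hx hxp hxq hxr
    rw [hc q x] at h2
    linear_combination this + h2
  refine ⟨fun x => if x = p then 2 * K else c p x - 2 * K, ?_⟩
  intro x hx y hy hxy
  have h3 : (4 : ZMod 3) = 1 := by decide
  beta_reduce
  by_cases hxp : x = p
  · subst hxp
    rw [if_pos rfl, if_neg hxy.symm]; ring
  · by_cases hyp : y = p
    · subst hyp
      rw [if_pos rfl, if_neg hxp, hc x y]; ring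
    · rw [if_neg hxp, if_neg hyp, key x hx y hy hxp hyp hxy]
      linear_combination K * h3

lemma FF_insert [DecidableEq α] {c : α → α → ZMod 3} (hc : ∀ x y, c x y = c y x) {W : Finset α}
    {u : α} (h : FF c W)
    (hu : ∀ p ∈ W, ∀ q ∈ W, ∀ r ∈ W, p ≠ q → p ≠ r → q ≠ r → kap c p q r u = 0) :
    FF c (insert u W) := by
  intro p hp q hq r hr s hs hpq hpr hps hqr hqs hrs
  rw [mem_insert] at hp hq hr hs
  rcases hs with rfl | hs
  · have hp := hp.resolve_left hps
    have hq := hq.resolve_left hqs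
    have hr := hr.resolve_left hrs
    exact hu p hp q hq r hr hpq hpr hqr
  rcases hr with rfl | hr
  · have hp := hp.resolve_left hpr
    have hq := hq.resolve_left hqr
    exact kap_zero_swap (hu p hp q hq s hs hpq hps hqs)
  rcases hq with rfl | hq
  · have hp := hp.resolve_left hpq
    rw [kap_symm hc]
    exact hu r hr s hs p hp hrs hpr.symm hps.symm
  rcases hp with rfl | hp
  · rw [kap_symm hc]
    exact kap_zero_swap (hu r hr s hs q hq hrs hqr.symm hqs.symm)
  exact h p hp q hq r hr s hs hpq hpr hps hqr hqs hrs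

variable [DecidableEq α] [Fintype α]

lemma card_univ_sdiff4 {p q r s : α} (hpq : p ≠ q) (hpr : p ≠ r) (hps : p ≠ s) (hqr : q ≠ r)
    (hqs : q ≠ s) (hrs : r ≠ s) : (univ \ {p, q, r, s} : Finset α).card = Fintype.card α - 4 := by
  rw [card_sdiff_of_subset (subset_univ _), card_univ]
  congr 1
  rw [card_insert_of_notMem, card_insert_of_notMem, card_insert_of_notMem, card_singleton]
  · simp [hrs]
  · simp [hqr, hqs]
  · simp [hpq, hpr, hps]

lemma card_univ_sdiff2 {p q : α} (hpq : p ≠ q) :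
    (univ \ {p, q} : Finset α).card = Fintype.card α - 2 := by
  rw [card_sdiff_of_subset (subset_univ _), card_univ, card_pair hpq]

omit [DecidableEq α] [Fintype α] in
lemma exists_major (X : Finset α) (hX : 7 ≤ X.card) (g : α → ZMod 3) :
    ∃ v, 3 ≤ (X.filter (fun x => g x = v)).card := by
  by_contra hcon
  push Not at hcon
  have h1 : X.card = ∑ v : ZMod 3, (X.filter (fun x => g x = v)).card :=
    card_eq_sum_card_fiberwise (fun x _ => mem_univ _)
  have h2 : ∑ v : ZMod 3, (X.filter (fun x => g x = v)).card ≤ ∑ _v : ZMod 3, 2 :=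
    sum_le_sum fun v _ => by have := hcon v; omega
  have h3 : ∑ _v : ZMod 3, 2 = 6 := by decide
  omega

/-- The common structure lemma. -/
lemma struct {c : α → α → ZMod 3} (hc : ∀ x y, c x y = c y x) {n k : ℕ} (hn : 4 ≤ n)
    (hN : n + 7 ≤ Fintype.card α) (hk : 2 ≤ k) (hkn : k ≤ n)
    (HP : ∀ p q r s : α, p ≠ q → p ≠ r → p ≠ s → q ≠ r → q ≠ s → r ≠ s → kap c p q r s = 0 →
      PC (univ \ {p, q, r, s}) k (gd c p q) (gd c r s)) :
    (∃ W : Finset α, FF c W ∧ Fintype.card α - 5 ≤ W.card) ∨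
    ∃ p q : α, p ≠ q ∧
      ∀ v, ((univ \ {p, q}).filter (fun u => gd c p q u = v)).card ≤ Fintype.card α - 7 := by
  by_cases hF : FF c univ
  · left
    exact ⟨univ, hF, by rw [card_univ]; omega⟩
  unfold FF at hF
  push Not at hF
  obtain ⟨p1, -, q1, -, u0, -, u1, -, h1, h2, h3, h4, h5, h6, hk0⟩ := hF
  obtain ⟨g, hg⟩ : ∃ g, g = gd c p1 q1 := ⟨_, rfl⟩
  have hg01 : g u0 ≠ g u1 := by
    intro h
    apply hk0
    simp only [kap, ← hg, h, sub_self]
  by_cases hv : ∀ v, ((univ \ {p1, q1}).filter (fun u => gd c p1 q1 u = v)).card ≤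
      Fintype.card α - 7
  · right; exact ⟨p1, q1, h1, hv⟩
  push Not at hv
  obtain ⟨v, hv⟩ := hv
  rw [← hg] at hv
  left
  obtain ⟨X, hX⟩ : ∃ X : Finset α, X = univ \ {p1, q1} := ⟨_, rfl⟩
  obtain ⟨W, hW⟩ : ∃ W : Finset α, W = X.filter (fun u => g u = v) := ⟨_, rfl⟩
  rw [← hX, ← hW] at hv
  have memX : ∀ x, x ∈ X ↔ x ≠ p1 ∧ x ≠ q1 := by
    intro x; rw [hX]; simp
  have memW : ∀ x, x ∈ W ↔ (x ≠ p1 ∧ x ≠ q1) ∧ g x = v := by
    intro x; rw [hW, mem_filter, memX]
  -- an element of `X` outside `W`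
  obtain ⟨u, huX, hu⟩ : ∃ u, (u ≠ p1 ∧ u ≠ q1) ∧ g u ≠ v := by
    by_cases h : g u0 = v
    · exact ⟨u1, ⟨h3.symm, h5.symm⟩, fun h' => hg01 (h.trans h'.symm)⟩
    · exact ⟨u0, ⟨h2.symm, h4.symm⟩, h⟩
  have hPC : ∀ p ∈ W, ∀ q ∈ W, p ≠ q → PC (univ \ {p1, q1, p, q}) k g (gd c p q) := by
    intro p hp q hq hpq
    rw [memW] at hp hq
    rw [hg]
    apply HP p1 q1 p q h1 hp.1.1.symm hq.1.1.symm hp.1.2.symm hq.1.2.symm hpq
    simp only [kap, ← hg]
    rw [hp.2, hq.2, sub_self]
  have hWF : FF c W := by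
    intro p hp q hq r hr s hs hpq hpr hps hqr hqs hrs
    have hpc := hPC p hp q hq hpq
    have hcard : 0 < (W \ {p, q, r, s}).card := by
      have := le_card_sdiff {p, q, r, s} W
      have h4 : ({p, q, r, s} : Finset α).card ≤ 4 := card_le_four
      omega
    obtain ⟨z, hz⟩ := card_pos.1 hcard
    rw [mem_sdiff] at hz
    simp only [mem_insert, mem_singleton, not_or] at hz
    obtain ⟨hzW, hzp, hzq, hzr, hzs⟩ := hz
    rw [memW] at hp hq hr hs hzW
    have hup : u ≠ p := by rintro rfl; exact hu hp.2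
    have huq : u ≠ q := by rintro rfl; exact hu hq.2
    have hur : u ≠ r := by rintro rfl; exact hu hr.2
    have hus : u ≠ s := by rintro rfl; exact hu hs.2
    have hR := card_univ_sdiff4 h1 hp.1.1.symm hq.1.1.symm hp.1.2.symm hq.1.2.symm hpq
    have := P3 hpc hk (by rw [hR]; omega) (u := u) (z := z) (r := r) (s := s)
      (by simp [huX.1, huX.2, hup, huq]) (by simp [hzW.1.1, hzW.1.2, hzp, hzq])
      (by simp [hr.1.1, hr.1.2, hpr.symm, hqr.symm]) (by simp [hs.1.1, hs.1.2, hps.symm, hqs.symm])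
      hur hus hzr hzs (by rw [hzW.2]; exact hu) (by rw [hr.2, hs.2])
    simp only [kap, this, sub_self]
  by_cases hbig : Fintype.card α - 5 ≤ W.card
  · exact ⟨W, hWF, hbig⟩
  have hWc : W.card = Fintype.card α - 6 := by omega
  have huW : u ∉ W := by
    rw [memW]; rintro ⟨-, h⟩; exact hu h
  refine ⟨insert u W, FF_insert hc hWF ?_, ?_⟩
  · intro p hp q hq r hr hpq hpr hqr
    have hpc := hPC p hp q hq hpq
    have hpm := (memW p).1 hp
    have hqm := (memW q).1 hq
    have hrm := (memW r).1 hr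
    have hR := card_univ_sdiff4 h1 hpm.1.1.symm hqm.1.1.symm hpm.1.2.symm hqm.1.2.symm hpq
    have c1 : 3 ≤ ((univ \ {p1, q1, p, q}).filter (fun x => g x = v)).card := by
      have hsub : W \ {p, q} ⊆ (univ \ {p1, q1, p, q}).filter (fun x => g x = v) := by
        intro x hx
        rw [mem_sdiff, memW] at hx
        simp only [mem_insert, mem_singleton, not_or] at hx
        rw [mem_filter]
        exact ⟨by simp [hx.1.1.1, hx.1.1.2, hx.2.1, hx.2.2], hx.1.2⟩
      have h1' := card_le_card hsub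
      have h2' := le_card_sdiff {p, q} W
      have h3' : ({p, q} : Finset α).card ≤ 2 := card_le_two
      omega
    have c2 : 3 ≤ ((univ \ {p1, q1, p, q}).filter (fun x => g x ≠ v)).card := by
      have hsub : X \ W ⊆ (univ \ {p1, q1, p, q}).filter (fun x => g x ≠ v) := by
        intro x hx
        rw [mem_sdiff] at hx
        have hxW := hx.2
        have hxX := (memX x).1 hx.1
        rw [memW] at hxW
        have hgx : g x ≠ v := fun h => hxW ⟨hxX, h⟩
        rw [mem_filter]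
        refine ⟨?_, hgx⟩
        have hxp : x ≠ p := by rintro rfl; exact hgx hpm.2
        have hxq : x ≠ q := by rintro rfl; exact hgx hqm.2
        simp [hxX.1, hxX.2, hxp, hxq]
      have h1' := card_le_card hsub
      have h2' := le_card_sdiff W X
      have h3' : X.card = Fintype.card α - 2 := by rw [hX]; exact card_univ_sdiff2 h1
      omega
    have hup : u ≠ p := by rintro rfl; exact hu hpm.2
    have huq : u ≠ q := by rintro rfl; exact hu hqm.2
    have := P2 hpc hk (by rw [hR]; omega) v c1 c2 (r := r) (s := u)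
      (by simp [hrm.1.1, hrm.1.2, hpr.symm, hqr.symm]) (by simp [huX.1, huX.2, hup, huq])
    simp only [kap, this, sub_self]
  · rw [card_insert_of_notMem huW]; omega

/-- Both a class and its complement are large on the remaining vertices. -/
lemma wide {c : α → α → ZMod 3} {n : ℕ} (hn : 4 ≤ n)
    (hN : n + 7 ≤ Fintype.card α) {p1 q1 : α} (h1 : p1 ≠ q1)
    (hw : ∀ v, ((univ \ {p1, q1}).filter (fun u => gd c p1 q1 u = v)).card ≤ Fintype.card α - 7)
    {p q : α} (hp : p ≠ p1 ∧ p ≠ q1) (hq : q ≠ p1 ∧ q ≠ q1) (hpq : p ≠ q) :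
    ∃ v, 3 ≤ ((univ \ {p1, q1, p, q}).filter (fun x => gd c p1 q1 x = v)).card ∧
      3 ≤ ((univ \ {p1, q1, p, q}).filter (fun x => gd c p1 q1 x ≠ v)).card := by
  have hR := card_univ_sdiff4 h1 hp.1.symm hq.1.symm hp.2.symm hq.2.symm hpq
  obtain ⟨v, hv⟩ := exists_major (univ \ {p1, q1, p, q}) (by rw [hR]; omega) (gd c p1 q1)
  refine ⟨v, hv, ?_⟩
  have h2 := card_filter_add_card_filter_not (s := (univ \ {p1, q1, p, q} : Finset α))
    (fun x => gd c p1 q1 x = v)
  have h3 : ((univ \ {p1, q1, p, q}).filter (fun x => gd c p1 q1 x = v)).card ≤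
      ((univ \ {p1, q1}).filter (fun u => gd c p1 q1 u = v)).card := by
    apply card_le_card
    intro x hx
    simp only [mem_filter, mem_sdiff, mem_univ, true_and, mem_insert, mem_singleton,
      not_or] at hx ⊢
    exact ⟨⟨hx.1.1, hx.1.2.1⟩, hx.2⟩
  have h4 := hw v
  change 3 ≤ ((univ \ {p1, q1, p, q}).filter (fun x => ¬ gd c p1 q1 x = v)).card
  omega

/-- Structure in the twin case. -/
lemma struct_twin {c : α → α → ZMod 3} (hc : ∀ x y, c x y = c y x) {n k : ℕ} (hn : 4 ≤ n)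
    (hN : n + 7 ≤ Fintype.card α) (hk : 2 ≤ k) (hkn : k ≤ n)
    (HP : ∀ p q r s : α, p ≠ q → p ≠ r → p ≠ s → q ≠ r → q ≠ s → r ≠ s →
      PC (univ \ {p, q, r, s}) k (gd c p q) (gd c r s)) :
    ∃ W : Finset α, FF c W ∧ Fintype.card α - 5 ≤ W.card := by
  rcases struct hc hn hN hk hkn (fun p q r s h1 h2 h3 h4 h5 h6 _ => HP p q r s h1 h2 h3 h4 h5 h6)
    with h | ⟨p1, q1, h1, hw⟩
  · exact h
  refine ⟨univ \ {p1, q1}, ?_, ?_⟩
  · intro p hp q hq r hr s hs hpq hpr hps hqr hqs hrs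
    simp only [mem_sdiff, mem_univ, true_and, mem_insert, mem_singleton, not_or] at hp hq hr hs
    obtain ⟨v, hv1, hv2⟩ := wide hn hN h1 hw hp hq hpq
    have hR := card_univ_sdiff4 h1 (Ne.symm hp.1) (Ne.symm hq.1) (Ne.symm hp.2)
      (Ne.symm hq.2) hpq
    have := P2 (HP p1 q1 p q h1 (Ne.symm hp.1) (Ne.symm hq.1) (Ne.symm hp.2)
      (Ne.symm hq.2) hpq) hk
      (by rw [hR]; omega) v hv1 hv2 (r := r) (s := s)
      (by simp [hr.1, hr.2, hpr.symm, hqr.symm]) (by simp [hs.1, hs.2, hps.symm, hqs.symm])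
    simp only [kap, this, sub_self]
  · rw [card_univ_sdiff2 h1]; omega

end S

end Pool.Agent.Work.MP_2da030_co
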