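import Pool.Agent.Work.MP_2da030_co.B

set_option autoImplicit false

open Finset

namespace Pool.Agent.Work.MP_2da030_co

section Z
variable {α : Type*}

lemma sum_const3 (w : ZMod 3) : w + (w + w) = 0 := by revert w; decide

/-- `3k` elements in equal triples. -/
lemma eq_triples [DecidableEq α] (g : α → ZMod 3) (k : ℕ) : ∀ X : Finset α, 3 * k + 4 ≤ X.card →
    ∃ T ⊆ X, T.card = 3 * k ∧ ∀ h : ZMod 3 → ZMod 3, ∑ x ∈ T, h (g x) = 0 := by
  induction k with
  | zero =>
    intro X _
    exact ⟨∅, empty_subset _, by simp, fun h => by simp⟩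
  | succ k ih =>
    intro X hX
    obtain ⟨v, hv⟩ := exists_major X (by omega) g
    obtain ⟨T0, hT0, hT0c⟩ := exists_subset_card_eq hv
    have hT0X : T0 ⊆ X := hT0.trans (filter_subset _ _)
    obtain ⟨T, hT, hTc, hTs⟩ := ih (X \ T0) (by
      rw [card_sdiff_of_subset hT0X]; omega)
    have hdis : Disjoint T0 T := by
      rw [disjoint_left]
      intro x hx hx'
      exact (mem_sdiff.1 (hT hx')).2 hx
    refine ⟨T0 ∪ T, union_subset hT0X (hT.trans sdiff_subset), ?_, ?_⟩
    · rw [card_union_of_disjoint hdis]; omega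
    · intro h
      rw [sum_union hdis, hTs h, add_zero]
      have : ∑ x ∈ T0, h (g x) = ∑ x ∈ T0, h v := by
        apply sum_congr rfl
        intro x hx
        rw [(mem_filter.1 (hT0 hx)).2]
      rw [this, sum_const, hT0c]
      have h3 : ∀ w : ZMod 3, 3 • w = 0 := by decide
      exact h3 _

/-- Any seven elements of `F_3^2` contain a zero-sum subset of size three or six. -/
lemma cw7 [DecidableEq α] (u v : α → ZMod 3) (X : Finset α) (hX : X.card = 7) :
    ∃ T ⊆ X, (T.card = 3 ∨ T.card = 6) ∧ ∑ x ∈ T, u x = 0 ∧ ∑ x ∈ T, v x = 0 := by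
  classical
  let P : Fin 3 → MvPolynomial {x // x ∈ X} (ZMod 3) :=
    ![∑ i, MvPolynomial.X i ^ 2, ∑ i, MvPolynomial.C (u i.1) * MvPolynomial.X i ^ 2,
      ∑ i, MvPolynomial.C (v i.1) * MvPolynomial.X i ^ 2]
  have hcard : Fintype.card {x // x ∈ X} = 7 := by rw [Fintype.card_coe, hX]
  have hd : ∀ j, (P j).totalDegree ≤ 2 := by
    intro j
    fin_cases j
    · refine (MvPolynomial.totalDegree_finsetSum _ _).trans (Finset.sup_le ?_)
      intro i _
      exact (MvPolynomial.totalDegree_pow _ _).trans (by rw [MvPolynomial.totalDegree_X])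
    · refine (MvPolynomial.totalDegree_finsetSum _ _).trans (Finset.sup_le ?_)
      intro i _
      refine (MvPolynomial.totalDegree_mul _ _).trans ?_
      rw [MvPolynomial.totalDegree_C, zero_add]
      exact (MvPolynomial.totalDegree_pow _ _).trans (by rw [MvPolynomial.totalDegree_X])
    · refine (MvPolynomial.totalDegree_finsetSum _ _).trans (Finset.sup_le ?_)
      intro i _
      refine (MvPolynomial.totalDegree_mul _ _).trans ?_
      rw [MvPolynomial.totalDegree_C, zero_add]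
      exact (MvPolynomial.totalDegree_pow _ _).trans (by rw [MvPolynomial.totalDegree_X])
  have hlt : (∑ j, (P j).totalDegree) < Fintype.card {x // x ∈ X} := by
    rw [hcard, Fin.sum_univ_three]
    have := hd 0
    have := hd 1
    have := hd 2
    omega
  have hdvd := char_dvd_card_solutions_of_fintype_sum_lt (K := ZMod 3) 3 hlt
  -- there is a nonzero solution
  obtain ⟨z, hz, hz0⟩ : ∃ z : {x // x ∈ X} → ZMod 3,
      (∀ j, MvPolynomial.eval z (P j) = 0) ∧ z ≠ 0 := by
    by_contra hcon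
    push Not at hcon
    have h0 : ∀ j, MvPolynomial.eval (0 : {x // x ∈ X} → ZMod 3) (P j) = 0 := by
      intro j
      fin_cases j <;> simp [P]
    have h1 : Fintype.card {z : {x // x ∈ X} → ZMod 3 // ∀ j, MvPolynomial.eval z (P j) = 0}
        = 1 := by
      rw [Fintype.card_eq_one_iff]
      exact ⟨⟨0, h0⟩, fun y => Subtype.ext (hcon y.1 y.2)⟩
    have h2 : 3 ∣ 1 := by
      rw [← h1]
      convert hdvd
    omega
  have hsq : ∀ w : ZMod 3, w ^ 2 = if w ≠ 0 then 1 else 0 := by decide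
  have e0 := hz 0
  have e1 := hz 1
  have e2 := hz 2
  simp only [P, Matrix.cons_val_zero, Matrix.cons_val_one, Matrix.cons_val, map_sum, map_mul,
    map_pow, MvPolynomial.eval_X, MvPolynomial.eval_C, hsq, mul_ite, mul_one, mul_zero] at e0 e1 e2
  obtain ⟨T, hT⟩ : ∃ T : Finset α, T = (univ.filter (fun i : {x // x ∈ X} => z i ≠ 0)).map
    (Function.Embedding.subtype _) := ⟨_, rfl⟩
  have hsumT : ∀ w : α → ZMod 3, ∑ x ∈ T, w x = ∑ i : {x // x ∈ X}, if z i ≠ 0 then w i.1 else 0 := by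
    intro w
    rw [hT, sum_map, sum_filter]
    rfl
  have hTX : T ⊆ X := by
    intro x hx
    rw [hT, mem_map] at hx
    obtain ⟨i, -, rfl⟩ := hx
    exact i.2
  have hTne : T.Nonempty := by
    obtain ⟨i, hi⟩ := Function.ne_iff.1 hz0
    refine ⟨i.1, ?_⟩
    rw [hT, mem_map]
    exact ⟨i, by simpa using hi, rfl⟩
  have hTmod : (T.card : ZMod 3) = 0 := by
    have := hsumT (fun _ => 1)
    rw [sum_const, nsmul_eq_mul, mul_one] at this
    rw [this]
    exact e0
  have hTdvd : 3 ∣ T.card := (ZMod.natCast_eq_zero_iff _ _).1 hTmod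
  have hTle : T.card ≤ 7 := by rw [← hX]; exact card_le_card hTX
  have hTpos : 0 < T.card := card_pos.2 hTne
  refine ⟨T, hTX, by omega, ?_, ?_⟩
  · rw [hsumT]; exact e1
  · rw [hsumT]; exact e2

lemma cap5 : ∀ S : Finset (ZMod 3 × ZMod 3), 5 ≤ S.card →
    ∃ a ∈ S, ∃ b ∈ S, ∃ c ∈ S, a ≠ b ∧ a ≠ c ∧ b ≠ c ∧ a + b + c = 0 := by
  decide +kernel

/-- Any nine elements of `F_3^2` contain a zero-sum triple. -/
lemma tri9 [DecidableEq α] (u v : α → ZMod 3) (X : Finset α) (hX : 9 ≤ X.card) :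
    ∃ T ⊆ X, T.card = 3 ∧ ∑ x ∈ T, u x = 0 ∧ ∑ x ∈ T, v x = 0 := by
  have h3 : ∀ w : ZMod 3, 3 • w = 0 := by decide
  by_cases hf : ∃ y : ZMod 3 × ZMod 3, 3 ≤ (X.filter (fun x => (u x, v x) = y)).card
  · obtain ⟨y, hy⟩ := hf
    obtain ⟨T, hT, hTc⟩ := exists_subset_card_eq hy
    refine ⟨T, hT.trans (filter_subset _ _), hTc, ?_, ?_⟩
    · have : ∑ x ∈ T, u x = ∑ x ∈ T, y.1 := by
        apply sum_congr rfl
        intro x hx
        rw [← (mem_filter.1 (hT hx)).2]
      rw [this, sum_const, hTc]; exact h3 _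
    · have : ∑ x ∈ T, v x = ∑ x ∈ T, y.2 := by
        apply sum_congr rfl
        intro x hx
        rw [← (mem_filter.1 (hT hx)).2]
      rw [this, sum_const, hTc]; exact h3 _
  · push Not at hf
    have h5 : 5 ≤ (X.image (fun x => (u x, v x))).card := by
      have h1 : X.card ≤ 2 * (X.image (fun x => (u x, v x))).card := by
        apply card_le_mul_card_image
        intro y _
        have := hf y
        omega
      omega
    obtain ⟨a, ha, b, hb, c, hc, hab, hac, hbc, hsum⟩ := cap5 _ h5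
    rw [mem_image] at ha hb hc
    obtain ⟨x, hx, rfl⟩ := ha
    obtain ⟨y, hy, rfl⟩ := hb
    obtain ⟨z, hz, rfl⟩ := hc
    have hxy : x ≠ y := by rintro rfl; exact hab rfl
    have hxz : x ≠ z := by rintro rfl; exact hac rfl
    have hyz : y ≠ z := by rintro rfl; exact hbc rfl
    have hs := Prod.ext_iff.1 hsum
    simp only [Prod.fst_add, Prod.snd_add, Prod.fst_zero, Prod.snd_zero] at hs
    refine ⟨{x, y, z}, ?_, ?_, ?_, ?_⟩
    · intro w hw
      simp only [mem_insert, mem_singleton] at hw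
      rcases hw with rfl | rfl | rfl <;> assumption
    · rw [card_insert_of_notMem, card_pair hyz]
      simp [hxy, hxz]
    · rw [sum_insert (by simp [hxy, hxz]), sum_pair hyz, ← add_assoc]; exact hs.1
    · rw [sum_insert (by simp [hxy, hxz]), sum_pair hyz, ← add_assoc]; exact hs.2

/-- `3k + 4` elements of `F_3^2` contain a zero-sum subset of size `3k`, `k ≥ 2`. -/
lemma zs [DecidableEq α] (u v : α → ZMod 3) (k : ℕ) (hk : 2 ≤ k) : ∀ X : Finset α,
    3 * k + 4 ≤ X.card → ∃ T ⊆ X, T.card = 3 * k ∧ ∑ x ∈ T, u x = 0 ∧ ∑ x ∈ T, v x = 0 := by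
  induction k, hk using Nat.le_induction with
  | base =>
    intro X hX
    obtain ⟨X1, hX1, hX1c⟩ := exists_subset_card_eq (show 7 ≤ X.card by omega)
    obtain ⟨T1, hT1, hc1, hu1, hv1⟩ := cw7 u v X1 hX1c
    rcases hc1 with hc1 | hc1
    · have hT1X : T1 ⊆ X := hT1.trans hX1
      obtain ⟨X2, hX2, hX2c⟩ := exists_subset_card_eq (show 7 ≤ (X \ T1).card by
        rw [card_sdiff_of_subset hT1X]; omega)
      obtain ⟨T2, hT2, hc2, hu2, hv2⟩ := cw7 u v X2 hX2c
      rcases hc2 with hc2 | hc2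
      · have hdis : Disjoint T1 T2 := by
          rw [disjoint_left]
          intro x hx hx'
          exact (mem_sdiff.1 (hX2 (hT2 hx'))).2 hx
        refine ⟨T1 ∪ T2, union_subset hT1X ((hT2.trans hX2).trans sdiff_subset), ?_, ?_, ?_⟩
        · rw [card_union_of_disjoint hdis]; omega
        · rw [sum_union hdis, hu1, hu2, add_zero]
        · rw [sum_union hdis, hv1, hv2, add_zero]
      · exact ⟨T2, (hT2.trans hX2).trans sdiff_subset, by omega, hu2, hv2⟩
    · exact ⟨T1, hT1.trans hX1, by omega, hu1, hv1⟩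
  | succ k hk ih =>
    intro X hX
    obtain ⟨T1, hT1X, hc1, hu1, hv1⟩ := tri9 u v X (by omega)
    obtain ⟨T2, hT2, hc2, hu2, hv2⟩ := ih (X \ T1) (by rw [card_sdiff_of_subset hT1X]; omega)
    have hdis : Disjoint T1 T2 := by
      rw [disjoint_left]
      intro x hx hx'
      exact (mem_sdiff.1 (hT2 hx')).2 hx
    refine ⟨T1 ∪ T2, union_subset hT1X (hT2.trans sdiff_subset), ?_, ?_, ?_⟩
    · rw [card_union_of_disjoint hdis]; omega
    · rw [sum_union hdis, hu1, hu2, add_zero]
    · rw [sum_union hdis, hv1, hv2, add_zero]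

/-! ### Flat case -/

lemma four_sums : ∀ s x y : ZMod 3, x ≠ 0 → y ≠ 0 →
    s = 0 ∨ s + x = 0 ∨ s + y = 0 ∨ s + x + y = 0 := by
  decide

end Z

end Pool.Agent.Work.MP_2da030_co
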