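import Pool.Agent.Work.MP_2da030_co.C

set_option autoImplicit false

open Finset

namespace Pool.Agent.Work.MP_2da030_co

section K
variable {α : Type*} [DecidableEq α]

/-- The sum of the colours over the complete graph on `S`. -/
def FS (c : α → α → ZMod 3) (S : Finset α) : ZMod 3 := 2 * ∑ x ∈ S, ∑ y ∈ S.erase x, c x y

lemma FS_insert {c : α → α → ZMod 3} (hc : ∀ x y, c x y = c y x) {S : Finset α} {p : α}
    (hp : p ∉ S) : FS c (insert p S) = FS c S + ∑ y ∈ S, c p y := by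
  have h4 : (4 : ZMod 3) = 1 := by decide
  have h1 : ∑ x ∈ insert p S, ∑ y ∈ (insert p S).erase x, c x y =
      ∑ y ∈ S, c p y + ∑ x ∈ S, (c p x + ∑ y ∈ S.erase x, c x y) := by
    rw [sum_insert hp, erase_insert hp]
    congr 1
    apply sum_congr rfl
    intro x hx
    have hxp : p ≠ x := by rintro rfl; exact hp hx
    rw [erase_insert_of_ne hxp, sum_insert (fun h => hp (mem_of_mem_erase h)), hc x p]
  unfold FS
  rw [h1, sum_add_distrib]
  linear_combination (∑ y ∈ S, c p y) * h4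

lemma PC_of_ne {a b : α} (h : a ≠ b) {T : Finset α} (hb : b ∉ T) : b ∉ insert a T := by
  simp [hb, h.symm]

lemma dec1 : ∀ F x y : ZMod 3, F ≠ 0 → F + x ≠ 0 → F + y ≠ 0 → F + x + y + 0 ≠ 0 →
    x * y = 0 := by decide

lemma dec2 : ∀ F x y k : ZMod 3, F ≠ 0 → F + x ≠ 0 → F + y ≠ 0 → F + x + y + k ≠ 0 → k ≠ 0 →
    (x - y) * (x + y + k) = 0 := by decide

variable [Fintype α]

lemma four_values {c : α → α → ZMod 3} (hc : ∀ x y, c x y = c y x) {m : ℕ} (hm : 2 ≤ m)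
    (hz : ∀ S : Finset α, S.card = m → FS c S ≠ 0) {p q r s : α} (hpq : p ≠ q) (hpr : p ≠ r)
    (hps : p ≠ s) (hqr : q ≠ r) (hqs : q ≠ s) (hrs : r ≠ s) {T : Finset α}
    (hT : T ⊆ univ \ {p, q, r, s}) (hTc : T.card = m - 2) :
    ∃ F : ZMod 3, F ≠ 0 ∧ F + (∑ x ∈ T, gd c p q x + gd c p q r) ≠ 0 ∧
      F + (∑ x ∈ T, gd c r s x + gd c r s p) ≠ 0 ∧
      F + (∑ x ∈ T, gd c p q x + gd c p q r) + (∑ x ∈ T, gd c r s x + gd c r s p) +
        kap c p q r s ≠ 0 := by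
  have hmem : ∀ a ∈ ({p, q, r, s} : Finset α), a ∉ T := by
    intro a ha h
    exact (mem_sdiff.1 (hT h)).2 ha
  have hp : p ∉ T := hmem p (by simp)
  have hq : q ∉ T := hmem q (by simp)
  have hr : r ∉ T := hmem r (by simp)
  have hs : s ∉ T := hmem s (by simp)
  have key : ∀ a b : α, a ∉ T → b ∉ T → a ≠ b →
      FS c T + ∑ y ∈ T, c b y + (c a b + ∑ y ∈ T, c a y) ≠ 0 := by
    intro a b ha hb hab
    have h1 := hz (insert a (insert b T)) (by
      rw [card_insert_of_notMem (PC_of_ne hab.symm ha), card_insert_of_notMem hb, hTc]; omega)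
    rw [FS_insert hc (PC_of_ne hab.symm ha), FS_insert hc hb, sum_insert hb] at h1
    exact h1
  have e : ∀ a b : α, ∑ x ∈ T, gd c a b x = ∑ x ∈ T, c b x - ∑ x ∈ T, c a x := by
    intro a b; simp only [gd]; rw [sum_sub_distrib]
  refine ⟨FS c T + ∑ y ∈ T, c r y + (c p r + ∑ y ∈ T, c p y), key p r hp hr hpr, ?_, ?_, ?_⟩
  · have := key q r hq hr hqr
    rw [e]
    intro h; apply this; rw [← h]; simp only [gd]; ring
  · have := key p s hp hs hps
    rw [e]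
    intro h; apply this; rw [← h]; simp only [gd]; rw [hc s p, hc r p]; ring
  · have := key q s hq hs hqs
    rw [e, e]
    intro h; apply this; rw [← h]; simp only [gd, kap]; rw [hc s p, hc r p]; ring

lemma clique_HP {c : α → α → ZMod 3} (hc : ∀ x y, c x y = c y x) {m : ℕ} (hm : 2 ≤ m)
    (hz : ∀ S : Finset α, S.card = m → FS c S ≠ 0) {p q r s : α} (hpq : p ≠ q) (hpr : p ≠ r)
    (hps : p ≠ s) (hqr : q ≠ r) (hqs : q ≠ s) (hrs : r ≠ s) (hk : kap c p q r s = 0) :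
    PC (univ \ {p, q, r, s}) (m - 2) (gd c p q) (gd c r s) := by
  refine ⟨gd c p q r, gd c r s p, fun T hT hTc => ?_⟩
  obtain ⟨F, h1, h2, h3, h4⟩ := four_values hc hm hz hpq hpr hps hqr hqs hrs hT hTc
  rw [hk] at h4
  exact dec1 _ _ _ h1 h2 h3 h4

lemma clique_HP' {c : α → α → ZMod 3} (hc : ∀ x y, c x y = c y x) {m : ℕ} (hm : 2 ≤ m)
    (hz : ∀ S : Finset α, S.card = m → FS c S ≠ 0) {p q r s : α} (hpq : p ≠ q) (hpr : p ≠ r)
    (hps : p ≠ s) (hqr : q ≠ r) (hqs : q ≠ s) (hrs : r ≠ s) (hk : kap c p q r s ≠ 0) :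
    PC (univ \ {p, q, r, s}) (m - 2) (fun x => gd c p q x - gd c r s x)
      (fun x => gd c p q x + gd c r s x) := by
  refine ⟨gd c p q r - gd c r s p, gd c p q r + gd c r s p + kap c p q r s, fun T hT hTc => ?_⟩
  obtain ⟨F, h1, h2, h3, h4⟩ := four_values hc hm hz hpq hpr hps hqr hqs hrs hT hTc
  have := dec2 _ _ _ _ h1 h2 h3 h4 hk
  rw [sum_sub_distrib, sum_add_distrib]
  rw [← this]; ring

/-- Every other pair is proportional to a wide pair. -/
lemma ratio {c : α → α → ZMod 3} (hc : ∀ x y, c x y = c y x) {m : ℕ} (hm : 4 ≤ m)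
    (hN : m + 7 ≤ Fintype.card α)
    (hz : ∀ S : Finset α, S.card = m → FS c S ≠ 0) {p1 q1 : α} (h1 : p1 ≠ q1)
    (hw : ∀ v, ((univ \ {p1, q1}).filter (fun u => gd c p1 q1 u = v)).card ≤ Fintype.card α - 7)
    {p q : α} (hp : p ≠ p1 ∧ p ≠ q1) (hq : q ≠ p1 ∧ q ≠ q1) (hpq : p ≠ q) :
    ∃ l : ZMod 3, ∀ r ∈ univ \ {p1, q1, p, q}, ∀ s ∈ univ \ {p1, q1, p, q},
      gd c p q s - gd c p q r = l * (gd c p1 q1 s - gd c p1 q1 r) := by
  have hR := card_univ_sdiff4 h1 hp.1.symm hq.1.symm hp.2.symm hq.2.symm hpq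
  by_cases hk : kap c p1 q1 p q = 0
  · refine ⟨0, fun r hr s hs => ?_⟩
    obtain ⟨v, hv1, hv2⟩ := wide hm hN h1 hw hp hq hpq
    have := P2 (clique_HP hc (by omega) hz h1 hp.1.symm hq.1.symm hp.2.symm hq.2.symm hpq hk)
      (by omega) (by rw [hR]; omega) v hv1 hv2 hr hs
    rw [this, sub_self, zero_mul]
  have hpc := clique_HP' hc (by omega) hz h1 hp.1.symm hq.1.symm hp.2.symm hq.2.symm hpq hk
  obtain ⟨R, hRd⟩ : ∃ R : Finset α, R = univ \ {p1, q1, p, q} := ⟨_, rfl⟩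
  rw [← hRd] at hpc hR ⊢
  obtain ⟨G1, hG1⟩ : ∃ G : α → ZMod 3, G = fun x => gd c p1 q1 x - gd c p q x := ⟨_, rfl⟩
  obtain ⟨G2, hG2⟩ : ∃ G : α → ZMod 3, G = fun x => gd c p1 q1 x + gd c p q x := ⟨_, rfl⟩
  rw [← hG1, ← hG2] at hpc
  by_cases hc1 : ∀ r ∈ R, ∀ s ∈ R, G1 r = G1 s
  · refine ⟨1, fun r hr s hs => ?_⟩
    have := hc1 r hr s hs
    rw [hG1] at this
    simp only at this
    linear_combination this
  by_cases hc2 : ∀ r ∈ R, ∀ s ∈ R, G2 r = G2 s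
  · refine ⟨-1, fun r hr s hs => ?_⟩
    have := hc2 r hr s hs
    rw [hG2] at this
    simp only at this
    linear_combination -this
  exfalso
  obtain ⟨v, hv⟩ := exists_major R (by rw [hR]; omega) G1
  have hv2 : ¬ 3 ≤ (R.filter (fun x => G1 x ≠ v)).card := by
    intro h3
    apply hc2
    intro r hr s hs
    exact P2 hpc (by omega) (by rw [hR]; omega) v hv h3 hr hs
  have hsum := card_filter_add_card_filter_not (s := R) (fun x => G1 x = v)
  change ¬ 3 ≤ (R.filter (fun x => ¬ G1 x = v)).card at hv2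
  obtain ⟨Rv, hRv⟩ : ∃ Rv : Finset α, Rv = R.filter (fun x => G1 x = v) := ⟨_, rfl⟩
  rw [← hRv] at hsum
  have hRvc : Fintype.card α - 6 ≤ Rv.card := by omega
  obtain ⟨u, huR, hu⟩ : ∃ u ∈ R, G1 u ≠ v := by
    push Not at hc1
    obtain ⟨r, hr, s, hs, hrs⟩ := hc1
    by_cases h : G1 r = v
    · exact ⟨s, hs, fun h' => hrs (h.trans h'.symm)⟩
    · exact ⟨r, hr, h⟩
  have hconst : ∀ r ∈ Rv, ∀ s ∈ Rv, G2 r = G2 s := by
    intro r hr s hs
    have hcard : 0 < (Rv \ {r, s}).card := by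
      have h1' := le_card_sdiff {r, s} Rv
      have h2' : ({r, s} : Finset α).card ≤ 2 := card_le_two
      omega
    obtain ⟨z, hz'⟩ := card_pos.1 hcard
    rw [mem_sdiff] at hz'
    simp only [mem_insert, mem_singleton, not_or] at hz'
    obtain ⟨hzR, hzr, hzs⟩ := hz'
    rw [hRv, mem_filter] at hr hs hzR
    exact P3 hpc (by omega) (by rw [hR]; omega) huR hzR.1 hr.1 hs.1
      (by rintro rfl; exact hu hr.2) (by rintro rfl; exact hu hs.2) hzr hzs
      (by rw [hzR.2]; exact hu) (by rw [hr.2, hs.2])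
  obtain ⟨r0, hr0⟩ : Rv.Nonempty := card_pos.1 (by omega)
  have hsub : Rv ⊆ (univ \ {p1, q1}).filter (fun u => gd c p1 q1 u = gd c p1 q1 r0) := by
    intro x hx
    have e2 := hconst x hx r0 hr0
    rw [hRv, mem_filter] at hx hr0
    have e1 : G1 x = G1 r0 := by rw [hx.2, hr0.2]
    rw [hG1] at e1
    rw [hG2] at e2
    simp only at e1 e2
    rw [mem_filter]
    constructor
    · have := hx.1
      rw [hRd] at this
      simp only [mem_sdiff, mem_univ, true_and, mem_insert, mem_singleton, not_or] at this ⊢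
      exact ⟨this.1, this.2.1⟩
    · have h2 : (2 : ZMod 3) * (gd c p1 q1 x - gd c p1 q1 r0) = 0 := by
        linear_combination e1 + e2
      rcases mul_eq_zero.1 h2 with h | h
      · exact absurd h (by decide)
      · exact sub_eq_zero.1 h
  have h6 := card_le_card hsub
  have h7 := hw (gd c p1 q1 r0)
  omega

lemma sq_one : ∀ x : ZMod 3, x ≠ 0 → x * x = 1 := by decide

/-- Either a large flat set or a rank one structure. -/
lemma struct_clique {c : α → α → ZMod 3} (hc : ∀ x y, c x y = c y x) {m : ℕ} (hm : 4 ≤ m)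
    (hN : m + 7 ≤ Fintype.card α)
    (hz : ∀ S : Finset α, S.card = m → FS c S ≠ 0) :
    (∃ W : Finset α, FF c W ∧ Fintype.card α - 5 ≤ W.card) ∨
    ∃ (W : Finset α) (a g : α → ZMod 3) (ν : ZMod 3), Fintype.card α - 2 ≤ W.card ∧
      ∀ x ∈ W, ∀ y ∈ W, x ≠ y → c x y = a x + a y + ν * (g x * g y) := by
  rcases struct hc hm hN (k := m - 2) (by omega) (by omega)
    (fun p q r s h1 h2 h3 h4 h5 h6 hk => clique_HP hc (by omega) hz h1 h2 h3 h4 h5 h6 hk)
    with h | ⟨p1, q1, h1, hw⟩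
  · exact Or.inl h
  right
  obtain ⟨W, hW⟩ : ∃ W : Finset α, W = univ \ {p1, q1} := ⟨_, rfl⟩
  obtain ⟨g, hg⟩ : ∃ g : α → ZMod 3, g = gd c p1 q1 := ⟨_, rfl⟩
  have hWc : W.card = Fintype.card α - 2 := by rw [hW]; exact card_univ_sdiff2 h1
  have memW : ∀ x, x ∈ W ↔ x ≠ p1 ∧ x ≠ q1 := by intro x; rw [hW]; simp
  have rat : ∀ p ∈ W, ∀ q ∈ W, p ≠ q → ∃ l : ZMod 3, ∀ r ∈ W, ∀ s ∈ W, p ≠ r → p ≠ s → q ≠ r →
      q ≠ s → kap c p q r s = l * (g s - g r) := by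
    intro p hp q hq hpq
    obtain ⟨l, hl⟩ := ratio hc hm hN hz h1 hw ((memW p).1 hp) ((memW q).1 hq) hpq
    refine ⟨l, fun r hr s hs h2 h3 h4 h5 => ?_⟩
    rw [memW] at hr hs
    have := hl r (by simp [hr.1, hr.2, h2.symm, h4.symm]) s (by simp [hs.1, hs.2, h3.symm, h5.symm])
    rw [hg]
    exact this
  -- bad pairs avoiding four points
  have bad : ∀ a b d e : α, ∃ r ∈ W, ∃ s ∈ W, g s - g r ≠ 0 ∧ (a ≠ r ∧ b ≠ r ∧ d ≠ r ∧ e ≠ r) ∧
      (a ≠ s ∧ b ≠ s ∧ d ≠ s ∧ e ≠ s) := by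
    intro a b d e
    have h4 : ({a, b, d, e} : Finset α).card ≤ 4 := card_le_four
    have h5 := le_card_sdiff {a, b, d, e} W
    obtain ⟨r, hr⟩ : (W \ {a, b, d, e}).Nonempty := card_pos.1 (by omega)
    by_contra hcon
    push Not at hcon
    have hsub : W \ {a, b, d, e} ⊆ (univ \ {p1, q1}).filter (fun u => gd c p1 q1 u = g r) := by
      intro s hs
      rw [mem_sdiff] at hr hs
      simp only [mem_insert, mem_singleton, not_or] at hr hs
      by_contra hh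
      have hgs : g s - g r ≠ 0 := by
        intro h
        apply hh
        rw [mem_filter, ← hW, ← hg]
        exact ⟨hs.1, sub_eq_zero.1 h⟩
      exact hs.2.2.2.2 (hcon r hr.1 s hs.1 hgs ⟨Ne.symm hr.2.1, Ne.symm hr.2.2.1,
        Ne.symm hr.2.2.2.1, Ne.symm hr.2.2.2.2⟩ (Ne.symm hs.2.1) (Ne.symm hs.2.2.1)
        (Ne.symm hs.2.2.2.1)).symm
    have h6 := card_le_card hsub
    have h7 := hw (g r)
    omega
  -- the value of normalised curvature does not depend on the second pair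
  have inv : ∀ p ∈ W, ∀ q ∈ W, ∀ r ∈ W, ∀ s ∈ W, ∀ t ∈ W, ∀ u ∈ W, p ≠ q →
      (p ≠ r ∧ q ≠ r) → (p ≠ s ∧ q ≠ s) → (p ≠ t ∧ q ≠ t) → (p ≠ u ∧ q ≠ u) →
      g s - g r ≠ 0 → g u - g t ≠ 0 →
      kap c p q r s * ((g q - g p) * (g s - g r)) = kap c p q t u * ((g q - g p) * (g u - g t)) := by
    intro p hp q hq r hr s hs t ht u hu hpq h2 h3 h4 h5 h6 h7
    obtain ⟨l, hl⟩ := rat p hp q hq hpq
    rw [hl r hr s hs h2.1 h3.1 h2.2 h3.2, hl t ht u hu h4.1 h5.1 h4.2 h5.2]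
    have e1 := sq_one _ h6
    have e2 := sq_one _ h7
    linear_combination l * (g q - g p) * e1 - l * (g q - g p) * e2
  -- fix two disjoint bad pairs
  obtain ⟨p0, hp0, q0, hq0, hb0, -, -⟩ := bad p1 p1 p1 p1
  obtain ⟨r0, hr0, s0, hs0, hb1, hb2, hb3⟩ := bad p0 q0 p0 q0
  have hp0q0 : p0 ≠ q0 := by rintro rfl; exact hb0 (sub_self _)
  obtain ⟨ν, hν⟩ : ∃ ν, ν = kap c p0 q0 r0 s0 * ((g q0 - g p0) * (g s0 - g r0)) := ⟨_, rfl⟩
  have all : ∀ p ∈ W, ∀ q ∈ W, ∀ r ∈ W, ∀ s ∈ W, p ≠ q → p ≠ r → p ≠ s → q ≠ r → q ≠ s → r ≠ s →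
      kap c p q r s = ν * ((g q - g p) * (g s - g r)) := by
    intro p hp q hq r hr s hs hpq hpr hps hqr hqs hrs
    by_cases h2 : g s - g r = 0
    · obtain ⟨l, hl⟩ := rat p hp q hq hpq
      rw [hl r hr s hs hpr hps hqr hqs, h2]; ring
    by_cases h3 : g q - g p = 0
    · obtain ⟨l, hl⟩ := rat r hr s hs hrs
      rw [kap_symm hc, hl p hp q hq hpr.symm hqr.symm hps.symm hqs.symm, h3]; ring
    have hmain : kap c p q r s * ((g q - g p) * (g s - g r)) = ν := by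
      obtain ⟨t, ht, u, hu, h4, h5, h6⟩ := bad p q p0 q0
      have htu : t ≠ u := by rintro rfl; exact h4 (sub_self _)
      have e1 := inv p hp q hq r hr s hs t ht u hu hpq ⟨hpr, hqr⟩ ⟨hps, hqs⟩ ⟨h5.1, h5.2.1⟩
        ⟨h6.1, h6.2.1⟩ h2 h4
      have e2 := inv t ht u hu p hp q hq p0 hp0 q0 hq0 htu ⟨h5.1.symm, h6.1.symm⟩
        ⟨h5.2.1.symm, h6.2.1.symm⟩ ⟨h5.2.2.1.symm, h6.2.2.1.symm⟩
        ⟨h5.2.2.2.symm, h6.2.2.2.symm⟩ h3 hb0
      have e3 := inv p0 hp0 q0 hq0 t ht u hu r0 hr0 s0 hs0 hp0q0 ⟨h5.2.2.1, h5.2.2.2⟩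
        ⟨h6.2.2.1, h6.2.2.2⟩ ⟨hb2.1, hb2.2.1⟩ ⟨hb3.1, hb3.2.1⟩ h4 hb1
      rw [e1, kap_symm hc p q t u, hν, ← e3, kap_symm hc p0 q0 t u]
      linear_combination e2
    have e1 := sq_one _ h2
    have e2 := sq_one _ h3
    rw [← hmain]
    linear_combination -(kap c p q r s * (g q - g p) * (g q - g p)) * e1 - kap c p q r s * e2
  -- subtract the rank one part
  obtain ⟨c', hc'⟩ : ∃ c' : α → α → ZMod 3, c' = fun x y => c x y - ν * (g x * g y) := ⟨_, rfl⟩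
  have hsymm : ∀ x y, c' x y = c' y x := by
    intro x y; rw [hc']; simp only; rw [hc x y]; ring
  have hFF : FF c' W := by
    intro p hp q hq r hr s hs hpq hpr hps hqr hqs hrs
    have := all p hp q hq r hr s hs hpq hpr hps hqr hqs hrs
    rw [hc']
    simp only [kap, gd] at this ⊢
    linear_combination this
  obtain ⟨a, ha⟩ := flat_of_FF hsymm hFF (by omega)
  refine ⟨W, a, g, ν, by omega, fun x hx y hy hxy => ?_⟩
  have := ha x hx y hy hxy
  rw [hc'] at this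
  simp only at this
  linear_combination this

omit [Fintype α] in
lemma FS_rank {c : α → α → ZMod 3} {W : Finset α} {a g : α → ZMod 3} {ν : ZMod 3}
    (h : ∀ x ∈ W, ∀ y ∈ W, x ≠ y → c x y = a x + a y + ν * (g x * g y)) {S : Finset α}
    (hS : S ⊆ W) : FS c S = ((S.card : ZMod 3) - 1) * ∑ x ∈ S, a x +
      2 * ν * ((∑ x ∈ S, g x) * (∑ x ∈ S, g x) - ∑ x ∈ S, g x * g x) := by
  have h1 : ∀ x ∈ S, ∑ y ∈ S.erase x, c x y = ((S.card : ZMod 3) - 1) * a x +
      (∑ y ∈ S, a y - a x) + ν * (g x * (∑ y ∈ S, g y) - g x * g x) := by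
    intro x hx
    have e1 : ∑ y ∈ S.erase x, c x y = ∑ y ∈ S.erase x, (a x + a y + ν * (g x * g y)) := by
      apply sum_congr rfl
      intro y hy
      rw [mem_erase] at hy
      exact h x (hS hx) y (hS hy.2) (Ne.symm hy.1)
    have e2 : ∑ y ∈ S.erase x, a y = ∑ y ∈ S, a y - a x := by
      rw [← sum_erase_add S a hx]; ring
    have e3 : ∑ y ∈ S.erase x, g y = ∑ y ∈ S, g y - g x := by
      rw [← sum_erase_add S g hx]; ring
    have hcard : 1 ≤ S.card := card_pos.2 ⟨x, hx⟩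
    rw [e1, sum_add_distrib, sum_add_distrib, sum_const, card_erase_of_mem hx, e2, nsmul_eq_mul,
      Nat.cast_sub hcard, Nat.cast_one, ← mul_sum, ← mul_sum, e3]
    ring
  unfold FS
  rw [sum_congr rfl h1, sum_add_distrib, sum_add_distrib, ← mul_sum, sum_sub_distrib, sum_const,
    nsmul_eq_mul, ← mul_sum, sum_sub_distrib, ← sum_mul]
  have h4 : (4 : ZMod 3) = 1 := by decide
  linear_combination (((S.card : ZMod 3) - 1) * ∑ x ∈ S, a x) * h4

omit [Fintype α] in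
/-- In the rank one case there is a zero-sum `K_m`. -/
lemma rank_zero {c : α → α → ZMod 3} {m : ℕ} (hm : 4 ≤ m) (hm3 : m % 3 = 0 ∨ m % 3 = 1)
    {W : Finset α} {a g : α → ZMod 3} {ν : ZMod 3} (hW : m + 5 ≤ W.card)
    (h : ∀ x ∈ W, ∀ y ∈ W, x ≠ y → c x y = a x + a y + ν * (g x * g y)) :
    ∃ S : Finset α, S.card = m ∧ FS c S = 0 := by
  rcases hm3 with h3 | h3
  · obtain ⟨k, hk⟩ : ∃ k, m = 3 * k := ⟨m / 3, by omega⟩
    obtain ⟨S, hS, hSc, hu, hv⟩ := zs g (fun x => - a x + ν * (g x * g x)) k (by omega) W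
      (by omega)
    refine ⟨S, by omega, ?_⟩
    rw [FS_rank h hS, hu, hSc]
    rw [sum_add_distrib, sum_neg_distrib, ← mul_sum] at hv
    have e : ((3 * k : ℕ) : ZMod 3) = 0 := by
      rw [Nat.cast_mul]
      have : ((3 : ℕ) : ZMod 3) = 0 := by decide
      rw [this, zero_mul]
    have h3' : (3 : ZMod 3) = 0 := by decide
    rw [e]
    linear_combination hv - (ν * ∑ x ∈ S, g x * g x) * h3'
  · obtain ⟨k, hk⟩ : ∃ k, m = 3 * k + 1 := ⟨m / 3, by omega⟩
    obtain ⟨x0, hx0⟩ : W.Nonempty := card_pos.1 (by omega)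
    obtain ⟨T, hT, hTc, hTs⟩ := eq_triples g k (W.erase x0) (by
      rw [card_erase_of_mem hx0]; omega)
    have hx0T : x0 ∉ T := fun hh => (mem_erase.1 (hT hh)).1 rfl
    have hS : insert x0 T ⊆ W := by
      intro x hx
      rw [mem_insert] at hx
      rcases hx with rfl | hx
      · exact hx0
      · exact mem_of_mem_erase (hT hx)
    have hcard : (insert x0 T).card = m := by
      rw [card_insert_of_notMem hx0T]; omega
    refine ⟨insert x0 T, hcard, ?_⟩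
    rw [FS_rank h hS, hcard, sum_insert hx0T, sum_insert hx0T, sum_insert hx0T]
    have e1 := hTs (fun z => z)
    have e2 := hTs (fun z => z * z)
    rw [e1, e2, hk]
    have e : ((3 * k + 1 : ℕ) : ZMod 3) = 1 := by
      rw [Nat.cast_add, Nat.cast_mul]
      have : ((3 : ℕ) : ZMod 3) = 0 := by decide
      rw [this, zero_mul, Nat.cast_one, zero_add]
    rw [e]
    ring

end K

end Pool.Agent.Work.MP_2da030_co
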