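import Pool.Agent.Work.MP_2da030_co.D

set_option autoImplicit false

open Finset

namespace Pool.Agent.Work.MP_2da030_co

open Classical in
/-- Twice the weight of the copy given by `φ`. -/
noncomputable def Wt {V α : Type*} [Fintype V] (G : SimpleGraph V) (c : α → α → ZMod 3)
    (φ : V → α) : ZMod 3 :=
  ∑ u, ∑ v, if G.Adj u v then c (φ u) (φ v) else 0

/-- A zero-sum copy. -/
def ZS {V α : Type*} [Fintype V] (G : SimpleGraph V) (c : α → α → ZMod 3) : Prop :=
  ∃ φ : V → α, Function.Injective φ ∧ Wt G c φ = 0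

section G
variable {V α : Type*} [Fintype V] [DecidableEq V] [DecidableEq α] (G : SimpleGraph V)

open Classical in
/-- The effect of moving `v` to `w`. -/
noncomputable def Ds (c : α → α → ZMod 3) (φ : V → α) (v : V) (w : α) : ZMod 3 :=
  ∑ u, if G.Adj v u then c w (φ u) - c (φ v) (φ u) else 0

omit [DecidableEq α] in
lemma Wt_update {c : α → α → ZMod 3} (hc : ∀ x y, c x y = c y x) (φ : V → α) (v : V) (w : α) :
    Wt G c (Function.update φ v w) = Wt G c φ + 2 * Ds G c φ v w := by
  classical
  obtain ⟨φ', hφ'⟩ : ∃ φ', φ' = Function.update φ v w := ⟨_, rfl⟩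
  have hv : φ' v = w := by rw [hφ', Function.update_self]
  have hne : ∀ u, u ≠ v → φ' u = φ u := by
    intro u hu; rw [hφ', Function.update_of_ne hu]
  rw [← hφ']
  unfold Wt Ds
  have h1 : ∀ u, u ≠ v → (∑ t, if G.Adj u t then c (φ' u) (φ' t) else 0) =
      (∑ t, if G.Adj u t then c (φ u) (φ t) else 0) +
        (if G.Adj v u then c w (φ u) - c (φ v) (φ u) else 0) := by
    intro u hu
    rw [← add_sum_erase univ _ (mem_univ v),
      ← add_sum_erase univ (fun t => if G.Adj u t then c (φ u) (φ t) else 0) (mem_univ v)]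
    have h2 : ∑ t ∈ univ.erase v, (if G.Adj u t then c (φ' u) (φ' t) else 0) =
        ∑ t ∈ univ.erase v, (if G.Adj u t then c (φ u) (φ t) else 0) := by
      apply sum_congr rfl
      intro t ht
      rw [hne u hu, hne t (mem_erase.1 ht).1]
    rw [h2, hne u hu, hv]
    by_cases h : G.Adj u v
    · rw [if_pos h, if_pos h, if_pos h.symm, hc (φ u) w, hc (φ u) (φ v)]; ring
    · rw [if_neg h, if_neg h, if_neg (fun h' => h h'.symm)]; ring
  have h3 : (∑ t, if G.Adj v t then c (φ' v) (φ' t) else 0) =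
      (∑ t, if G.Adj v t then c (φ v) (φ t) else 0) +
        ∑ t, (if G.Adj v t then c w (φ t) - c (φ v) (φ t) else 0) := by
    rw [← sum_add_distrib]
    apply sum_congr rfl
    intro t _
    by_cases h : G.Adj v t
    · rw [if_pos h, if_pos h, if_pos h, hv, hne t (G.ne_of_adj h).symm]; ring
    · rw [if_neg h, if_neg h, if_neg h]; ring
  rw [← add_sum_erase univ _ (mem_univ v),
    ← add_sum_erase univ (fun u => ∑ t, if G.Adj u t then c (φ u) (φ t) else 0) (mem_univ v), h3,
    sum_congr rfl (fun u hu => h1 u (mem_erase.1 hu).1), sum_add_distrib]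
  have h4 : ∑ u ∈ univ.erase v, (if G.Adj v u then c w (φ u) - c (φ v) (φ u) else 0) =
      ∑ u, (if G.Adj v u then c w (φ u) - c (φ v) (φ u) else 0) := by
    rw [← add_sum_erase univ _ (mem_univ v), if_neg (G.irrefl), zero_add]
  rw [h4]; ring

omit [Fintype V] [DecidableEq α] in
lemma inj_update {φ : V → α} (hφ : Function.Injective φ) (v : V) {w : α} (hw : ∀ u, φ u ≠ w) :
    Function.Injective (Function.update φ v w) := by
  intro a b hab
  by_cases ha : a = v
  · by_cases hb : b = v
    · rw [ha, hb]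
    · rw [ha, Function.update_self, Function.update_of_ne hb] at hab
      exact absurd hab.symm (hw b)
  · by_cases hb : b = v
    · rw [hb, Function.update_self, Function.update_of_ne ha] at hab
      exact absurd hab (hw a)
    · rw [Function.update_of_ne ha, Function.update_of_ne hb] at hab
      exact hφ hab

omit [DecidableEq α] in
/-- Two independent switches. -/
lemma two_switch {c : α → α → ZMod 3} (hc : ∀ x y, c x y = c y x) {φ : V → α}
    (hφ : Function.Injective φ) {v v' : V} (hvv : v ≠ v') (hadj : ¬ G.Adj v v') {w w' : α}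
    (hw : ∀ u, φ u ≠ w) (hw' : ∀ u, φ u ≠ w') (hww : w ≠ w') (h1 : Ds G c φ v w ≠ 0)
    (h2 : Ds G c φ v' w' ≠ 0) : ZS G c := by
  classical
  have e1 := Wt_update G hc φ v w
  have e2 := Wt_update G hc φ v' w'
  have e3 := Wt_update G hc (Function.update φ v w) v' w'
  have hD : Ds G c (Function.update φ v w) v' w' = Ds G c φ v' w' := by
    unfold Ds
    apply sum_congr rfl
    intro u _
    by_cases h : G.Adj v' u
    · have hu : u ≠ v := by rintro rfl; exact hadj h.symm
      rw [if_pos h, if_pos h, Function.update_of_ne hu, Function.update_of_ne hvv.symm]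
    · rw [if_neg h, if_neg h]
  rw [hD, e1] at e3
  have hx : 2 * Ds G c φ v w ≠ 0 := mul_ne_zero (by decide) h1
  have hy : 2 * Ds G c φ v' w' ≠ 0 := mul_ne_zero (by decide) h2
  have i1 := inj_update hφ v hw
  have i2 := inj_update hφ v' hw'
  have i3 : Function.Injective (Function.update (Function.update φ v w) v' w') := by
    apply inj_update i1
    intro u
    by_cases hu : u = v
    · rw [hu, Function.update_self]; exact hww
    · rw [Function.update_of_ne hu]; exact hw' u
  rcases four_sums (Wt G c φ) _ _ hx hy with h | h | h | h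
  · exact ⟨φ, hφ, h⟩
  · exact ⟨_, i1, e1.trans h⟩
  · exact ⟨_, i2, e2.trans h⟩
  · exact ⟨_, i3, e3.trans h⟩

omit [DecidableEq α] in
/-- Extension of a partial injection. -/
lemma extend (S : Finset V) (ψ : V → α) (hψ : Set.InjOn ψ S) (A : Finset α)
    (hdis : ∀ u ∈ S, ψ u ∉ A) (hcard : Fintype.card V ≤ A.card + S.card) :
    ∃ φ : V → α, Function.Injective φ ∧ (∀ u ∈ S, φ u = ψ u) ∧ ∀ u, u ∉ S → φ u ∈ A := by
  classical
  have h1 : Fintype.card {u // u ∉ S} ≤ Fintype.card {x // x ∈ A} := by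
    rw [Fintype.card_coe, Fintype.card_subtype_compl, Fintype.card_coe]
    omega
  obtain ⟨e⟩ := Function.Embedding.nonempty_of_card_le h1
  refine ⟨fun u => if h : u ∈ S then ψ u else (e ⟨u, h⟩).1, ?_, ?_, ?_⟩
  · intro a b hab
    simp only at hab
    by_cases ha : a ∈ S
    · by_cases hb : b ∈ S
      · rw [dif_pos ha, dif_pos hb] at hab
        exact hψ ha hb hab
      · rw [dif_pos ha, dif_neg hb] at hab
        exact absurd (hab ▸ (e ⟨b, hb⟩).2) (hdis a ha)
    · by_cases hb : b ∈ S
      · rw [dif_neg ha, dif_pos hb] at hab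
        exact absurd (hab ▸ (e ⟨a, ha⟩).2) (hdis b hb)
      · rw [dif_neg ha, dif_neg hb] at hab
        have := e.injective (Subtype.ext hab)
        exact congrArg Subtype.val this
  · intro u hu
    simp only [dif_pos hu]
  · intro u hu
    simp only [dif_neg hu]
    exact (e ⟨u, hu⟩).2

end G

section flat
variable {V α : Type*} [Fintype V] [DecidableEq V] [DecidableEq α] (G : SimpleGraph V)

open Classical in
/-- The degree in `ZMod 3`. -/
noncomputable def dg (u : V) : ZMod 3 := ∑ v, if G.Adj u v then 1 else 0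

omit [DecidableEq V] [DecidableEq α] in
lemma Wt_flat {c : α → α → ZMod 3} {a : α → ZMod 3} {W : Finset α}
    (ha : ∀ x ∈ W, ∀ y ∈ W, x ≠ y → c x y = a x + a y) {φ : V → α}
    (hφ : Function.Injective φ) (hW : ∀ u, φ u ∈ W) :
    Wt G c φ = 2 * ∑ u, dg G u * a (φ u) := by
  classical
  unfold Wt dg
  have h1 : ∀ u, (∑ v, if G.Adj u v then c (φ u) (φ v) else 0) =
      (∑ v, if G.Adj u v then 1 else 0) * a (φ u) + ∑ v, if G.Adj u v then a (φ v) else 0 := by
    intro u
    rw [sum_mul, ← sum_add_distrib]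
    apply sum_congr rfl
    intro v _
    by_cases h : G.Adj u v
    · rw [if_pos h, if_pos h, if_pos h, ha _ (hW u) _ (hW v) (fun h' => G.ne_of_adj h (hφ h'))]
      ring
    · rw [if_neg h, if_neg h, if_neg h]; ring
  rw [sum_congr rfl (fun u _ => h1 u), sum_add_distrib, sum_comm (s := univ) (t := univ)
    (f := fun u v => if G.Adj u v then a (φ v) else 0)]
  have h2 : ∀ v, (∑ u, if G.Adj u v then a (φ v) else 0) =
      (∑ u, if G.Adj v u then 1 else 0) * a (φ v) := by
    intro v
    rw [sum_mul]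
    apply sum_congr rfl
    intro u _
    by_cases h : G.Adj u v
    · rw [if_pos h, if_pos h.symm, one_mul]
    · rw [if_neg h, if_neg (fun h' => h h'.symm), zero_mul]
  rw [sum_congr rfl (fun v _ => h2 v)]
  ring

lemma rearr (d : V → ZMod 3) (hd : ∑ u, d u = 0) (a : α → ZMod 3) (W : Finset α)
    (hW : Fintype.card V + 2 ≤ W.card) :
    ∃ φ : V → α, Function.Injective φ ∧ (∀ u, φ u ∈ W) ∧ ∑ u, d u * a (φ u) = 0 := by
  by_cases h1 : ∃ v, (W.filter (fun x => a x ≠ v)).card ≤ 1
  · obtain ⟨v, hv⟩ := h1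
    have hsum := card_filter_add_card_filter_not (s := W) (fun x => a x = v)
    change (W.filter (fun x => ¬ a x = v)).card ≤ 1 at hv
    obtain ⟨φ, hφ, -, hφA⟩ := extend (V := V) ∅ (fun u => (Classical.choice
      (show Nonempty α from by
        obtain ⟨x, -⟩ : W.Nonempty := card_pos.1 (by omega)
        exact ⟨x⟩))) (by simp) (W.filter (fun x => a x = v)) (by simp) (by
          rw [card_empty]; omega)
    refine ⟨φ, hφ, fun u => (mem_filter.1 (hφA u (notMem_empty u))).1, ?_⟩
    have : ∀ u, d u * a (φ u) = d u * v := by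
      intro u
      rw [(mem_filter.1 (hφA u (notMem_empty u))).2]
    rw [sum_congr rfl (fun u _ => this u), ← sum_mul, hd, zero_mul]
  push Not at h1
  by_cases h2 : ∀ u, d u = 0
  · obtain ⟨φ, hφ, -, hφA⟩ := extend (V := V) ∅ (fun u => (Classical.choice
      (show Nonempty α from by
        obtain ⟨x, -⟩ : W.Nonempty := card_pos.1 (by omega)
        exact ⟨x⟩))) (by simp) W (by simp) (by rw [card_empty]; omega)
    refine ⟨φ, hφ, fun u => hφA u (notMem_empty u), ?_⟩
    exact sum_eq_zero fun u _ => by rw [h2 u, zero_mul]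
  push Not at h2
  obtain ⟨u1, hu1⟩ := h2
  obtain ⟨u2, hu2, hu12⟩ : ∃ u2, d u2 ≠ 0 ∧ u2 ≠ u1 := by
    by_contra hcon
    push Not at hcon
    apply hu1
    rw [← hd, ← add_sum_erase univ d (mem_univ u1)]
    have : ∑ u ∈ univ.erase u1, d u = 0 := by
      apply sum_eq_zero
      intro u hu
      by_contra h
      exact (mem_erase.1 hu).1 (hcon u h)
    rw [this, add_zero]
  have hV : 2 ≤ Fintype.card V := by
    have := card_le_univ ({u2, u1} : Finset V)
    rw [card_pair hu12] at this
    exact this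
  -- a value taken twice
  obtain ⟨v, hv⟩ : ∃ v, 2 ≤ (W.filter (fun x => a x = v)).card := by
    by_contra hcon
    push Not at hcon
    have e1 : W.card = ∑ v : ZMod 3, (W.filter (fun x => a x = v)).card :=
      card_eq_sum_card_fiberwise (fun x _ => mem_univ _)
    have e2 : ∑ v : ZMod 3, (W.filter (fun x => a x = v)).card ≤ ∑ _v : ZMod 3, 1 :=
      sum_le_sum fun v _ => by have := hcon v; omega
    have e3 : ∑ _v : ZMod 3, 1 = 3 := by decide
    omega
  obtain ⟨p1, hp1, p2, hp2, hp⟩ := one_lt_card.1 hv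
  obtain ⟨q1, hq1, q2, hq2, hq⟩ := one_lt_card.1 (h1 v)
  rw [mem_filter] at hp1 hp2 hq1 hq2
  have hne : ∀ x y : α, a x = v → a y ≠ v → x ≠ y := by
    rintro x y h1 h2 rfl; exact h2 h1
  have n11 := hne _ _ hp1.2 hq1.2
  have n12 := hne _ _ hp1.2 hq2.2
  have n21 := hne _ _ hp2.2 hq1.2
  have n22 := hne _ _ hp2.2 hq2.2
  obtain ⟨ψ, hψ⟩ : ∃ ψ : V → α, ψ = fun u => if u = u1 then p1 else p2 := ⟨_, rfl⟩
  have hψ1 : ψ u1 = p1 := by rw [hψ]; simp
  have hψ2 : ψ u2 = p2 := by rw [hψ]; simp [hu12]
  obtain ⟨φ, hφ, hφS, hφA⟩ := extend ({u1, u2} : Finset V) ψ (by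
      intro x hx y hy hxy
      simp only [coe_insert, coe_singleton, Set.mem_insert_iff, Set.mem_singleton_iff] at hx hy
      rcases hx with rfl | rfl <;> rcases hy with rfl | rfl
      · rfl
      · rw [hψ1, hψ2] at hxy; exact absurd hxy hp
      · rw [hψ1, hψ2] at hxy; exact absurd hxy.symm hp
      · rfl) (W \ {p1, q1, p2, q2}) (by
      intro u hu
      simp only [mem_insert, mem_singleton] at hu
      rcases hu with rfl | rfl
      · rw [hψ1]; simp
      · rw [hψ2]; simp) (by
      have e1 := le_card_sdiff {p1, q1, p2, q2} W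
      have e2 : ({p1, q1, p2, q2} : Finset α).card ≤ 4 := card_le_four
      rw [card_pair hu12.symm]
      omega)
  have f1 : φ u1 = p1 := by rw [hφS u1 (by simp), hψ1]
  have f2 : φ u2 = p2 := by rw [hφS u2 (by simp), hψ2]
  have hother : ∀ u, u ≠ u1 → u ≠ u2 → φ u ∈ W \ {p1, q1, p2, q2} := by
    intro u h1 h2
    exact hφA u (by simp [h1, h2])
  have hq1' : ∀ u, φ u ≠ q1 := by
    intro u
    by_cases e1 : u = u1
    · rw [e1, f1]; exact n11
    by_cases e2 : u = u2
    · rw [e2, f2]; exact n21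
    intro h
    have := hother u e1 e2
    rw [h] at this
    simp at this
  have hq2' : ∀ u, φ u ≠ q2 := by
    intro u
    by_cases e1 : u = u1
    · rw [e1, f1]; exact n12
    by_cases e2 : u = u2
    · rw [e2, f2]; exact n22
    intro h
    have := hother u e1 e2
    rw [h] at this
    simp at this
  have hφW : ∀ u, φ u ∈ W := by
    intro u
    by_cases e1 : u = u1
    · rw [e1, f1]; exact hp1.1
    by_cases e2 : u = u2
    · rw [e2, f2]; exact hp2.1
    exact (mem_sdiff.1 (hother u e1 e2)).1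
  have upd : ∀ (χ : V → α) (u : V) (w : α), ∑ t, d t * a (Function.update χ u w t) =
      ∑ t, d t * a (χ t) + d u * (a w - a (χ u)) := by
    intro χ u w
    rw [← add_sum_erase univ _ (mem_univ u),
      ← add_sum_erase univ (fun t => d t * a (χ t)) (mem_univ u), Function.update_self]
    have : ∑ t ∈ univ.erase u, d t * a (Function.update χ u w t) =
        ∑ t ∈ univ.erase u, d t * a (χ t) := by
      apply sum_congr rfl
      intro t ht
      rw [Function.update_of_ne (mem_erase.1 ht).1]
    rw [this]; ring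
  have i1 := inj_update hφ u1 hq1'
  have i2 := inj_update hφ u2 hq2'
  have i3 : Function.Injective (Function.update (Function.update φ u1 q1) u2 q2) := by
    apply inj_update i1
    intro u
    by_cases hu : u = u1
    · rw [hu, Function.update_self]; exact hq
    · rw [Function.update_of_ne hu]; exact hq2' u
  have updW : ∀ (χ : V → α) (u : V) (w : α), (∀ t, χ t ∈ W) → w ∈ W →
      ∀ t, Function.update χ u w t ∈ W := by
    intro χ u w hχ hw t
    by_cases ht : t = u
    · rw [ht, Function.update_self]; exact hw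
    · rw [Function.update_of_ne ht]; exact hχ t
  have hx : d u1 * (a q1 - a p1) ≠ 0 := by
    apply mul_ne_zero hu1
    rw [hp1.2, sub_ne_zero]; exact hq1.2
  have hy : d u2 * (a q2 - a p2) ≠ 0 := by
    apply mul_ne_zero hu2
    rw [hp2.2, sub_ne_zero]; exact hq2.2
  rcases four_sums (∑ t, d t * a (φ t)) _ _ hx hy with h | h | h | h
  · exact ⟨φ, hφ, hφW, h⟩
  · exact ⟨_, i1, updW φ u1 q1 hφW hq1.1, by rw [upd, f1]; exact h⟩
  · exact ⟨_, i2, updW φ u2 q2 hφW hq2.1, by rw [upd, f2]; exact h⟩
  · refine ⟨_, i3, updW _ u2 q2 (updW φ u1 q1 hφW hq1.1) hq2.1, ?_⟩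
    rw [upd, upd, f1, Function.update_of_ne hu12, f2]
    exact h

lemma ZS_of_flat {c : α → α → ZMod 3} (hc : ∀ x y, c x y = c y x)
    (hd : ∑ u, dg G u = 0) {W : Finset α} (hF : FF c W)
    (hW : Fintype.card V + 2 ≤ W.card) (hV : 1 ≤ Fintype.card V) : ZS G c := by
  obtain ⟨a, ha⟩ := flat_of_FF hc hF (by omega)
  obtain ⟨φ, hφ, hφW, h⟩ := rearr (dg G) hd a W hW
  exact ⟨φ, hφ, by rw [Wt_flat G ha hφ hφW, h, mul_zero]⟩

end flat

end Pool.Agent.Work.MP_2da030_co
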