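import Pool.Agent.Work.MP_2da030_co.E

set_option autoImplicit false

open Finset

namespace Pool.Agent.Work.MP_2da030_co

/-! ### Triangles -/

section T
variable {α : Type*} [DecidableEq α]

lemma zdec : ∀ i j l : ZMod 3, i ≠ j → l ≠ i → l ≠ j → l = -i - j := by decide

lemma zmono : ∀ i l : ZMod 3, i + i + l ≠ 0 → l ≠ i := by decide

lemma three_zero : ∀ i : ZMod 3, i + i + i = 0 := by decide

variable {c : α → α → ZMod 3}

omit [DecidableEq α] in
/-- Two edges of colour `i` at a vertex: the third edge does not have colour `i`. -/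
lemma mono (hT : ∀ x y z : α, x ≠ y → x ≠ z → y ≠ z → c x y + c x z + c y z ≠ 0)
    {x y z : α} (hxy : x ≠ y) (hxz : x ≠ z) (hyz : y ≠ z) {i : ZMod 3} (h1 : c x y = i)
    (h2 : c x z = i) : c y z ≠ i := by
  have := hT x y z hxy hxz hyz
  rw [h1, h2] at this
  exact zmono _ _ this

omit [DecidableEq α] in
/-- Edges of colours `i`, `j` at a vertex: the third edge does not have colour `-i-j`. -/
lemma rainb (hT : ∀ x y z : α, x ≠ y → x ≠ z → y ≠ z → c x y + c x z + c y z ≠ 0)
    {x y z : α} (hxy : x ≠ y) (hxz : x ≠ z) (hyz : y ≠ z) {i j : ZMod 3} (h1 : c x y = i)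
    (h2 : c x z = j) : c y z ≠ -i - j := by
  have := hT x y z hxy hxz hyz
  rw [h1, h2] at this
  intro h
  apply this
  rw [h]; ring

omit [DecidableEq α] in
lemma noThree (hT : ∀ x y z : α, x ≠ y → x ≠ z → y ≠ z → c x y + c x z + c y z ≠ 0)
    {i j : ZMod 3} (hij : i ≠ j) {v a b d : α} (hva : v ≠ a) (hvb : v ≠ b) (hvd : v ≠ d)
    (hab : a ≠ b) (had : a ≠ d) (hbd : b ≠ d) (ha : c v a = j) (hb : c v b = j) (hd : c v d = j)
    (h1 : c a b ≠ i) (h2 : c a d ≠ i) (h3 : c b d ≠ i) : False := by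
  have e1 := zdec i j _ hij h1 (mono hT hva hvb hab ha hb)
  have e2 := zdec i j _ hij h2 (mono hT hva hvd had ha hd)
  have e3 := zdec i j _ hij h3 (mono hT hvb hvd hbd hb hd)
  exact mono hT hab had hbd e1 e2 e3

/-- The number of neighbours of colour `j` inside a set without colour `i` is at most two. -/
lemma le_two (hT : ∀ x y z : α, x ≠ y → x ≠ z → y ≠ z → c x y + c x z + c y z ≠ 0)
    {i j : ZMod 3} (hij : i ≠ j) {S : Finset α} (hS : ∀ x ∈ S, ∀ y ∈ S, x ≠ y → c x y ≠ i)
    {v : α} (hv : v ∉ S) : (S.filter (fun t => c v t = j)).card ≤ 2 := by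
  by_contra hcon
  push Not at hcon
  obtain ⟨a, ha, b, hb, d, hd, hab, had, hbd⟩ := two_lt_card.1 hcon
  rw [mem_filter] at ha hb hd
  have h1 : v ≠ a := by rintro rfl; exact hv ha.1
  have h2 : v ≠ b := by rintro rfl; exact hv hb.1
  have h3 : v ≠ d := by rintro rfl; exact hv hd.1
  exact noThree hT hij h1 h2 h3 hab had hbd ha.2 hb.2 hd.2 (hS a ha.1 b hb.1 hab)
    (hS a ha.1 d hd.1 had) (hS b hb.1 d hd.1 hbd)

lemma zne : ∀ i j : ZMod 3, i ≠ j → -i - j ≠ j ∧ -i - j ≠ i ∧ -i - (-i - j) = j := by decide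

omit [DecidableEq α] in
/-- In a set where the vertex `v` sees no colour `i`, the neighbours split. -/
lemma split_card {i j : ZMod 3} (hij : i ≠ j) {S : Finset α} {v : α}
    (hv : ∀ t ∈ S, c v t ≠ i) : (S.filter (fun t => c v t = j)).card +
      (S.filter (fun t => c v t = -i - j)).card = S.card := by
  rw [← card_filter_add_card_filter_not (s := S) (fun t => c v t = j)]
  congr 2
  apply filter_congr
  intro t ht
  constructor
  · intro h
    rw [h]
    exact (zne i j hij).1
  · intro h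
    exact zdec i j _ hij (hv t ht) h

lemma zsucc : ∀ i : ZMod 3, i ≠ i + 1 := by decide

/-- Six vertices without colour `i` inside are impossible. -/
lemma r33 (hT : ∀ x y z : α, x ≠ y → x ≠ z → y ≠ z → c x y + c x z + c y z ≠ 0)
    {i : ZMod 3} {S : Finset α} (hS : ∀ x ∈ S, ∀ y ∈ S, x ≠ y → c x y ≠ i) :
    S.card ≤ 5 := by
  by_contra hcon
  push Not at hcon
  obtain ⟨v, hv⟩ : S.Nonempty := card_pos.1 (by omega)
  have hS' : ∀ x ∈ S.erase v, ∀ y ∈ S.erase v, x ≠ y → c x y ≠ i := fun x hx y hy hxy =>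
    hS x (mem_of_mem_erase hx) y (mem_of_mem_erase hy) hxy
  have hv' : v ∉ S.erase v := by simp
  have h1 := le_two hT (zsucc i) hS' hv'
  have h2 := le_two hT (zne i (i + 1) (zsucc i)).2.1.symm hS' hv'
  have h3 := split_card (c := c) (zsucc i) (S := S.erase v) (v := v) (fun t ht =>
    hS v hv t (mem_of_mem_erase ht) (mem_erase.1 ht).1.symm)
  rw [card_erase_of_mem hv] at h3
  omega

variable [Fintype α]

/-- The neighbours of colour `i`. -/
def Nb (c : α → α → ZMod 3) (x : α) (i : ZMod 3) : Finset α :=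
  univ.filter (fun y => y ≠ x ∧ c x y = i)

lemma mem_Nb {x y : α} {i : ZMod 3} : y ∈ Nb c x i ↔ y ≠ x ∧ c x y = i := by simp [Nb]

lemma Nb_no (hT : ∀ x y z : α, x ≠ y → x ≠ z → y ≠ z → c x y + c x z + c y z ≠ 0)
    (x : α) (i : ZMod 3) : ∀ y ∈ Nb c x i, ∀ z ∈ Nb c x i, y ≠ z → c y z ≠ i := by
  intro y hy z hz hyz
  rw [mem_Nb] at hy hz
  exact mono hT hy.1.symm hz.1.symm hyz hy.2 hz.2

lemma Nb_card (x : α) : (Nb c x 0).card + (Nb c x 1).card + (Nb c x 2).card =
    Fintype.card α - 1 := by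
  have e1 : (univ.erase x).card = ∑ v : ZMod 3, ((univ.erase x).filter (fun y => c x y = v)).card :=
    card_eq_sum_card_fiberwise (fun x _ => mem_univ _)
  rw [card_erase_of_mem (mem_univ x), card_univ] at e1
  rw [e1]
  have e2 : ∀ v : ZMod 3, (univ.erase x).filter (fun y => c x y = v) = Nb c x v := by
    intro v; ext y; simp [Nb]
  rw [sum_congr rfl (fun v _ => by rw [e2 v])]
  exact (Fin.sum_univ_three (fun v : ZMod 3 => (Nb c x v).card)).symm

/-- No colour degree equals five. -/
lemma Nb_le_four (hc : ∀ x y, c x y = c y x)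
    (hT : ∀ x y z : α, x ≠ y → x ≠ z → y ≠ z → c x y + c x z + c y z ≠ 0)
    (hα : 11 ≤ Fintype.card α) (x : α) (i : ZMod 3) : (Nb c x i).card ≤ 4 := by
  have h5 := r33 hT (Nb_no hT x i)
  by_contra hcon
  push Not at hcon
  have hcard : (Nb c x i).card = 5 := by omega
  -- inside the class every vertex has two neighbours of each other colour
  have hin : ∀ z ∈ Nb c x i, ∀ k : ZMod 3, i ≠ k →
      (((Nb c x i).erase z).filter (fun t => c z t = k)).card = 2 := by
    intro z hz k hk
    have hS' : ∀ a ∈ (Nb c x i).erase z, ∀ b ∈ (Nb c x i).erase z, a ≠ b → c a b ≠ i :=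
      fun a ha b hb hab => Nb_no hT x i a (mem_of_mem_erase ha) b (mem_of_mem_erase hb) hab
    have hz' : z ∉ (Nb c x i).erase z := by simp
    have h1 := le_two hT hk hS' hz'
    have h2 := le_two hT (zne i k hk).2.1.symm hS' hz'
    have h3 := split_card (c := c) hk (S := (Nb c x i).erase z) (v := z) (fun t ht =>
      Nb_no hT x i z hz t (mem_of_mem_erase ht) (mem_erase.1 ht).1.symm)
    rw [card_erase_of_mem hz, hcard] at h3
    omega
  -- every outside vertex sees the class in colour `i`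
  have hout : ∀ y, y ∉ Nb c x i → ∀ z ∈ Nb c x i, c y z = i := by
    intro y hy z hz
    have hz' := mem_Nb.1 hz
    by_cases hyx : y = x
    · rw [hyx]; exact hz'.2
    by_contra hyz
    have hyz' : y ≠ z := by rintro rfl; exact hy hz
    obtain ⟨j, hj⟩ : ∃ j, c x y = j := ⟨_, rfl⟩
    have hji : i ≠ j := by
      rintro rfl
      exact hy (mem_Nb.2 ⟨hyx, hj⟩)
    have hk := zne i j hji
    -- colours from `y` to the class are `i` or `j`
    have hyt : ∀ t ∈ Nb c x i, c y t ≠ -i - j := by
      intro t ht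
      have ht' := mem_Nb.1 ht
      have hty : t ≠ y := by rintro rfl; exact hy ht
      rw [hc y t]
      exact rainb hT ht'.1.symm (Ne.symm hyx) hty ht'.2 hj
    have hcyz : c y z = j := by
      have := zdec i (-i - j) (c y z) hk.2.1.symm hyz (hyt z hz)
      rw [hk.2.2] at this
      exact this
    obtain ⟨z1, hz1⟩ : (((Nb c x i).erase z).filter (fun t => c z t = -i - j)).Nonempty :=
      card_pos.1 (by rw [hin z hz _ hk.2.1.symm]; norm_num)
    rw [mem_filter, mem_erase] at hz1
    obtain ⟨⟨hz1z, hz1N⟩, hz1c⟩ := hz1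
    have hy1 : y ≠ z1 := by rintro rfl; exact hy hz1N
    have hcy1 : c y z1 = j := by
      have e1 : c y z1 ≠ i := by
        have := rainb hT hyz'.symm hz1z.symm hy1 (i := j) (j := -i - j) (by rw [hc]; exact hcyz)
          hz1c
        intro h
        apply this
        rw [h]; ring
      have := zdec i (-i - j) (c y z1) hk.2.1.symm e1 (hyt z1 hz1N)
      rw [hk.2.2] at this
      exact this
    obtain ⟨t, ht, htz⟩ : ∃ t ∈ ((Nb c x i).erase z1).filter (fun t => c z1 t = -i - j),
        t ≠ z := by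
      by_contra hcon2
      push Not at hcon2
      have : ((Nb c x i).erase z1).filter (fun t => c z1 t = -i - j) ⊆ {z} := by
        intro t ht
        rw [mem_singleton]
        exact hcon2 t ht
      have h1 := card_le_card this
      rw [hin z1 hz1N _ hk.2.1.symm, card_singleton] at h1
      omega
    rw [mem_filter, mem_erase] at ht
    obtain ⟨⟨htz1, htN⟩, htc⟩ := ht
    have hyt' : y ≠ t := by rintro rfl; exact hy htN
    -- colour of `z t`
    have hzt : c z t = j := by
      have e1 : c z t ≠ i := Nb_no hT x i z hz t htN htz.symm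
      have e2 : c z t ≠ -i - j := by
        have := mono hT hz1z htz1.symm htz.symm (i := -i - j) (by rw [hc]; exact hz1c) htc
        exact this
      have := zdec i (-i - j) (c z t) hk.2.1.symm e1 e2
      rw [hk.2.2] at this
      exact this
    have g1 : c y t ≠ j := by
      have := mono hT hyz'.symm htz.symm hyt' (i := j) (by rw [hc]; exact hcyz) hzt
      exact this
    have g2 : c y t ≠ i := by
      have := rainb hT hy1.symm htz1.symm hyt' (i := j) (j := -i - j) (by rw [hc]; exact hcy1) htc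
      intro h
      apply this
      rw [h]; ring
    exact hyt t htN (zdec i j _ hji g2 g1)
  -- the complement has no colour `i`
  have hcomp : ∀ y ∈ univ \ Nb c x i, ∀ y' ∈ univ \ Nb c x i, y ≠ y' → c y y' ≠ i := by
    intro y hy y' hy' hyy
    rw [mem_sdiff] at hy hy'
    obtain ⟨z, hz⟩ : (Nb c x i).Nonempty := card_pos.1 (by omega)
    have hzy : z ≠ y := by rintro rfl; exact hy.2 hz
    have hzy' : z ≠ y' := by rintro rfl; exact hy'.2 hz
    exact mono hT hzy hzy' hyy (by rw [hc]; exact hout y hy.2 z hz)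
      (by rw [hc]; exact hout y' hy'.2 z hz)
  have h6 := r33 hT hcomp
  rw [card_sdiff_of_subset (subset_univ _), card_univ, hcard] at h6
  omega

/-- A zero-sum triangle on eleven vertices. -/
lemma tri11 (hc : ∀ x y, c x y = c y x) (hα : 11 ≤ Fintype.card α) :
    ∃ x y z : α, x ≠ y ∧ x ≠ z ∧ y ≠ z ∧ c x y + c x z + c y z = 0 := by
  by_contra hcon
  push Not at hcon
  have hT : ∀ x y z : α, x ≠ y → x ≠ z → y ≠ z → c x y + c x z + c y z ≠ 0 := hcon
  have h4 := Nb_le_four hc hT hα
  have hge : ∀ x : α, ∀ i : ZMod 3, 2 ≤ (Nb c x i).card := by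
    intro x i
    have h0 := h4 x 0
    have h1 := h4 x 1
    have h2 := h4 x 2
    have h3 := Nb_card (c := c) x
    have : i = 0 ∨ i = 1 ∨ i = 2 := by revert i; decide
    rcases this with rfl | rfl | rfl <;> omega
  obtain ⟨x⟩ : Nonempty α := Fintype.card_pos_iff.1 (by omega)
  obtain ⟨i, hi⟩ : ∃ i, (Nb c x i).card = 4 := by
    by_contra hno
    push Not at hno
    have h0 := h4 x 0
    have h1 := h4 x 1
    have h2 := h4 x 2
    have g0 := hno 0
    have g1 := hno 1
    have g2 := hno 2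
    have h3 := Nb_card (c := c) x
    omega
  obtain ⟨z, hz⟩ : (Nb c x i).Nonempty := card_pos.1 (by omega)
  have hz' := mem_Nb.1 hz
  -- a colour `k` with two neighbours of `z` in the class
  obtain ⟨k, hik, hk⟩ : ∃ k, i ≠ k ∧
      2 ≤ (((Nb c x i).erase z).filter (fun t => c z t = k)).card := by
    have h3 := split_card (c := c) (zsucc i) (S := (Nb c x i).erase z) (v := z) (fun t ht =>
      Nb_no hT x i z hz t (mem_of_mem_erase ht) (mem_erase.1 ht).1.symm)
    rw [card_erase_of_mem hz, hi] at h3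
    by_cases h : 2 ≤ (((Nb c x i).erase z).filter (fun t => c z t = i + 1)).card
    · exact ⟨i + 1, zsucc i, h⟩
    · exact ⟨-i - (i + 1), (zne i (i + 1) (zsucc i)).2.1.symm, by omega⟩
  obtain ⟨j, hj⟩ : ∃ j, j = -i - k := ⟨_, rfl⟩
  have hk3 := zne i k hik
  rw [← hj] at hk3
  have hij : i ≠ j := hk3.2.1.symm
  have hkj : -i - j = k := hk3.2.2
  have hjcard : (((Nb c x i).erase z).filter (fun t => c z t = j)).card ≤ 1 := by
    have h3 := split_card (c := c) hik (S := (Nb c x i).erase z) (v := z) (fun t ht =>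
      Nb_no hT x i z hz t (mem_of_mem_erase ht) (mem_erase.1 ht).1.symm)
    rw [card_erase_of_mem hz, hi, ← hj] at h3
    omega
  -- a `j`-neighbour of `z` outside the class
  obtain ⟨y, hyz, hyN⟩ : ∃ y ∈ Nb c z j, y ∉ Nb c x i := by
    by_contra hno
    push Not at hno
    have hsub : Nb c z j ⊆ ((Nb c x i).erase z).filter (fun t => c z t = j) := by
      intro t ht
      have h1 := hno t ht
      rw [mem_Nb] at ht
      rw [mem_filter, mem_erase]
      exact ⟨⟨ht.1, h1⟩, ht.2⟩
    have h1 := card_le_card hsub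
    have h2 := hge z j
    omega
  rw [mem_Nb] at hyz
  have hyx : y ≠ x := by
    rintro rfl
    have h1 := hz'.2
    have h2 := hyz.2
    rw [hc, h1] at h2
    exact hij h2
  have hxy : c x y = j := by
    have e1 : c x y ≠ i := fun h => hyN (mem_Nb.2 ⟨hyx, h⟩)
    have e2 : c x y ≠ k := by
      have := rainb hT hz'.1 hyz.1.symm hyx.symm (i := i) (j := j) (by rw [hc]; exact hz'.2) hyz.2
      rw [hkj] at this
      exact this
    rw [hj]; exact zdec i k _ hik e1 e2
  obtain ⟨z1, hz1, z2, hz2, hz12⟩ := one_lt_card.1 hk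
  rw [mem_filter, mem_erase] at hz1 hz2
  have hcy : ∀ t, t ≠ z → t ∈ Nb c x i → c z t = k → c y t = j := by
    intro t htz htN htc
    have ht' := mem_Nb.1 htN
    have hyt : y ≠ t := by rintro rfl; exact hyN htN
    have e1 : c y t ≠ i := by
      have := rainb hT hyz.1.symm htz.symm hyt (i := j) (j := k) hyz.2 htc
      intro h
      apply this
      rw [h, hj]; ring
    have e2 : c y t ≠ k := by
      have := rainb hT hyx.symm ht'.1.symm hyt (i := j) (j := i) hxy ht'.2
      rw [show -j - i = k by rw [← hkj]; ring] at this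
      exact this
    rw [hj]; exact zdec i k _ hik e1 e2
  have f1 := hcy z1 hz1.1.1 hz1.1.2 hz1.2
  have f2 := hcy z2 hz2.1.1 hz2.1.2 hz2.2
  have hyz1 : y ≠ z1 := by rintro rfl; exact hyN hz1.1.2
  have hyz2 : y ≠ z2 := by rintro rfl; exact hyN hz2.1.2
  have g1 : c z1 z2 ≠ j := mono hT hyz1 hyz2 hz12 f1 f2
  have g2 : c z1 z2 ≠ i := Nb_no hT x i z1 hz1.1.2 z2 hz2.1.2 hz12
  have g3 : c z1 z2 ≠ k := mono hT hz1.1.1.symm hz2.1.1.symm hz12 hz1.2 hz2.2
  apply g1
  rw [hj]; exact zdec i k _ hik g2 g3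

end T

end Pool.Agent.Work.MP_2da030_co
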