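import Pool.Agent.Work.MP_2da030_co.F

set_option autoImplicit false

open Finset

namespace Pool.Agent.Work.MP_2da030_co

section cases
variable {V α : Type*} [Fintype V] [DecidableEq V] [Fintype α] [DecidableEq α] (G : SimpleGraph V)

omit [Fintype α] [DecidableEq α] in
lemma Ds_update_adj (c : α → α → ZMod 3) (φ : V → α) {v t : V} (w z : α) (h : G.Adj v t) :
    Ds G c (Function.update φ t z) v w =
      Ds G c φ v w + (gd c (φ v) w z - gd c (φ v) w (φ t)) := by
  classical
  have hvt : v ≠ t := G.ne_of_adj h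
  unfold Ds gd
  rw [← add_sum_erase univ _ (mem_univ t),
    ← add_sum_erase univ (fun u => if G.Adj v u then c w (φ u) - c (φ v) (φ u) else 0) (mem_univ t),
    if_pos h, if_pos h, Function.update_self, Function.update_of_ne hvt]
  have : ∑ u ∈ univ.erase t, (if G.Adj v u then c w (Function.update φ t z u) -
      c (φ v) (Function.update φ t z u) else 0) =
      ∑ u ∈ univ.erase t, (if G.Adj v u then c w (φ u) - c (φ v) (φ u) else 0) := by
    apply sum_congr rfl
    intro u hu
    rw [Function.update_of_ne (mem_erase.1 hu).1]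
  rw [this]; ring

omit [Fintype α] [DecidableEq α] in
lemma Ds_update_not (c : α → α → ZMod 3) (φ : V → α) {v t : V} (w z : α) (h : ¬ G.Adj v t)
    (hvt : v ≠ t) : Ds G c (Function.update φ t z) v w = Ds G c φ v w := by
  classical
  unfold Ds
  apply sum_congr rfl
  intro u _
  by_cases hu : G.Adj v u
  · have hut : u ≠ t := by rintro rfl; exact h hu
    rw [if_pos hu, if_pos hu, Function.update_of_ne hut, Function.update_of_ne hvt]
  · rw [if_neg hu, if_neg hu]

/-- Two nonadjacent vertices which are not twins. -/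
lemma caseI {c : α → α → ZMod 3} (hc : ∀ x y, c x y = c y x)
    (hN : Fintype.card V + 4 ≤ Fintype.card α) {v v' b d : V} (hvv : v ≠ v')
    (hadj : ¬ G.Adj v v') (hb : G.Adj v' b) (hb' : ¬ G.Adj v b) (hd : G.Adj v d)
    (hno : ¬ ZS G c) : ∃ W : Finset α, FF c W ∧ Fintype.card α - 4 ≤ W.card := by
  by_cases hF : FF c univ
  · exact ⟨univ, hF, by rw [card_univ]; omega⟩
  unfold FF at hF
  push Not at hF
  obtain ⟨x, -, w, -, u, -, u', -, h1, h2, h3, h4, h5, h6, hk⟩ := hF
  refine ⟨univ \ {x, w, u, u'}, ?_, by rw [card_univ_sdiff4 h1 h2 h3 h4 h5 h6]⟩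
  by_contra hF2
  unfold FF at hF2
  push Not at hF2
  obtain ⟨x', hx', w', hw', y, hy, y', hy', g1, g2, g3, g4, g5, g6, hk'⟩ := hF2
  apply hno
  simp only [mem_sdiff, mem_univ, true_and, mem_insert, mem_singleton, not_or] at hx' hw' hy hy'
  have hbv : b ≠ v := by rintro rfl; exact hadj hb.symm
  have hbv' : b ≠ v' := (G.ne_of_adj hb).symm
  have hdv : d ≠ v := (G.ne_of_adj hd).symm
  have hdv' : d ≠ v' := by rintro rfl; exact hadj hd
  have hbd : b ≠ d := by rintro rfl; exact hb' hd
  obtain ⟨ψ, hψ⟩ : ∃ ψ : V → α, ψ = fun t => if t = v then x else if t = v' then x' else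
    if t = b then y else u := ⟨_, rfl⟩
  have p1 : ψ v = x := by rw [hψ]; simp
  have p2 : ψ v' = x' := by rw [hψ]; simp [hvv.symm]
  have p3 : ψ b = y := by rw [hψ]; simp [hbv, hbv']
  have p4 : ψ d = u := by rw [hψ]; simp [hdv, hdv', hbd.symm]
  obtain ⟨A, hA⟩ : ∃ A : Finset α, A = univ \ {x, w, u, u', x', w', y, y'} := ⟨_, rfl⟩
  have hAc : Fintype.card α ≤ A.card + 8 := by
    have e1 := le_card_sdiff {x, w, u, u', x', w', y, y'} (univ : Finset α)
    have e2 : ({x, w, u, u', x', w', y, y'} : Finset α).card ≤ 8 := by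
      refine (card_insert_le _ _).trans ?_
      refine (Nat.add_le_add_right (card_insert_le _ _) 1).trans ?_
      have : ({u, u', x', w', y, y'} : Finset α).card ≤ 6 := card_le_six
      omega
    rw [card_univ] at e1
    rw [hA]; omega
  have hS : ({v, v', b, d} : Finset V).card = 4 := by
    rw [card_insert_of_notMem, card_insert_of_notMem, card_insert_of_notMem, card_singleton]
    · simp [hbd]
    · simp [hbv'.symm, hdv'.symm]
    · simp [hvv, hbv.symm, hdv.symm]
  obtain ⟨φ, hφ, hφS, hφA⟩ := extend ({v, v', b, d} : Finset V) ψ (by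
      intro s hs t ht hst
      simp only [coe_insert, coe_singleton, Set.mem_insert_iff, Set.mem_singleton_iff] at hs ht
      have n1 := hx'.1
      have n2 := hx'.2.2.1
      have n3 := hy.1
      have n4 := hy.2.2.1
      rcases hs with rfl | rfl | rfl | rfl <;> rcases ht with rfl | rfl | rfl | rfl <;>
        first
          | rfl
          | (exfalso; simp only [p1, p2, p3, p4] at hst; first
              | exact n1 hst | exact n1 hst.symm | exact n2 hst | exact n2 hst.symm
              | exact n3 hst | exact n3 hst.symm | exact n4 hst | exact n4 hst.symm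
              | exact h2 hst | exact h2 hst.symm | exact g2 hst | exact g2 hst.symm)) A (by
      intro s hs
      simp only [mem_insert, mem_singleton] at hs
      rcases hs with rfl | rfl | rfl | rfl
      · rw [p1, hA]; simp
      · rw [p2, hA]; simp
      · rw [p3, hA]; simp
      · rw [p4, hA]; simp) (by rw [hS]; omega)
  have q1 : φ v = x := by rw [hφS v (by simp), p1]
  have q2 : φ v' = x' := by rw [hφS v' (by simp), p2]
  have q3 : φ b = y := by rw [hφS b (by simp), p3]
  have q4 : φ d = u := by rw [hφS d (by simp), p4]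
  -- a point which is not one of the four used points is not used
  have hun : ∀ z, z ∈ ({x, w, u, u', x', w', y, y'} : Finset α) → z ≠ x → z ≠ x' → z ≠ y →
      z ≠ u → ∀ t, φ t ≠ z := by
    intro z hz e1 e2 e3 e4 t
    by_cases t1 : t = v
    · rw [t1, q1]; exact e1.symm
    by_cases t2 : t = v'
    · rw [t2, q2]; exact e2.symm
    by_cases t3 : t = b
    · rw [t3, q3]; exact e3.symm
    by_cases t4 : t = d
    · rw [t4, q4]; exact e4.symm
    have := hφA t (by simp [t1, t2, t3, t4])
    rw [hA, mem_sdiff] at this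
    intro h
    rw [h] at this
    exact this.2 hz
  have uw := hun w (by simp) h1.symm (Ne.symm hx'.2.1) (Ne.symm hy.2.1) h4
  have uu' := hun u' (by simp) h3.symm (Ne.symm hx'.2.2.2) (Ne.symm hy.2.2.2) h6.symm
  have uw' := hun w' (by simp) hw'.1 g1.symm g4 hw'.2.2.1
  have uy' := hun y' (by simp) hy'.1 g3.symm g6.symm hy'.2.2.1
  -- first adjustment
  obtain ⟨φ1, i1, r1, r2, r3, s1, s2, s3, D1⟩ : ∃ φ1 : V → α, Function.Injective φ1 ∧ φ1 v = x ∧
      φ1 v' = x' ∧ φ1 b = y ∧ (∀ t, φ1 t ≠ w) ∧ (∀ t, φ1 t ≠ w') ∧ (∀ t, φ1 t ≠ y') ∧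
      Ds G c φ1 v w ≠ 0 := by
    by_cases h : Ds G c φ v w = 0
    · have e := Ds_update_adj G c φ w u' hd
      have key : ∀ z, (∀ t, φ t ≠ z) → u' ≠ z → ∀ t, Function.update φ d u' t ≠ z := by
        intro z hz hz' t
        by_cases ht : t = d
        · rw [ht, Function.update_self]; exact hz'
        · rw [Function.update_of_ne ht]; exact hz t
      refine ⟨Function.update φ d u', inj_update hφ d uu', ?_, ?_, ?_, key w uw h5.symm,
        key w' uw' (Ne.symm hw'.2.2.2), key y' uy' (Ne.symm hy'.2.2.2), ?_⟩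
      · rw [Function.update_of_ne hdv.symm, q1]
      · rw [Function.update_of_ne hdv'.symm, q2]
      · rw [Function.update_of_ne hbd, q3]
      · rw [e, h, zero_add, q1, q4]; exact hk
    · exact ⟨φ, hφ, q1, q2, q3, uw, uw', uy', h⟩
  -- second adjustment
  obtain ⟨φ2, i2, t1, t2, t3, D1', D2⟩ : ∃ φ2 : V → α, Function.Injective φ2 ∧
      φ2 v = x ∧ (∀ t, φ2 t ≠ w) ∧ (∀ t, φ2 t ≠ w') ∧
      Ds G c φ2 v w ≠ 0 ∧ Ds G c φ2 v' w' ≠ 0 := by
    by_cases h : Ds G c φ1 v' w' = 0
    · have e := Ds_update_adj G c φ1 w' y' hb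
      have e' := Ds_update_not G c φ1 w y' hb' hbv.symm
      have key : ∀ z, (∀ t, φ1 t ≠ z) → y' ≠ z → ∀ t, Function.update φ1 b y' t ≠ z := by
        intro z hz hz' t
        by_cases ht : t = b
        · rw [ht, Function.update_self]; exact hz'
        · rw [Function.update_of_ne ht]; exact hz t
      refine ⟨Function.update φ1 b y', inj_update i1 b s3, ?_, key w s1 hy'.2.1,
        key w' s2 g5.symm, ?_, ?_⟩
      · rw [Function.update_of_ne hbv.symm, r1]
      · rw [e']; exact D1
      · rw [e, h, zero_add, r2, r3]; exact hk'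
    · exact ⟨φ1, i1, r1, s1, s2, D1, h⟩
  exact two_switch G hc i2 hvv hadj t2 t3 (Ne.symm hw'.2.1) D1' D2

omit [Fintype V] [Fintype α] in
/-- Place a set of vertices onto a given set of points. -/
lemma place (x0 : α) (S : Finset V) (T : Finset α) (hST : S.card = T.card) :
    ∃ f : V → α, Set.InjOn f S ∧ S.image f = T := by
  classical
  have e := Finset.equivOfCardEq hST
  refine ⟨fun t => if h : t ∈ S then (e ⟨t, h⟩).1 else x0, ?_, ?_⟩
  · intro a ha b hb hab
    rw [mem_coe] at ha hb
    simp only [dif_pos ha, dif_pos hb] at hab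
    have := e.injective (Subtype.ext hab)
    exact congrArg Subtype.val this
  · ext y
    rw [mem_image]
    constructor
    · rintro ⟨t, ht, rfl⟩
      rw [dif_pos ht]
      exact (e ⟨t, ht⟩).2
    · intro hy
      refine ⟨(e.symm ⟨y, hy⟩).1, (e.symm ⟨y, hy⟩).2, ?_⟩
      rw [dif_pos (e.symm ⟨y, hy⟩).2]
      simp

/-- Twins of degree at least two. -/
lemma caseII {c : α → α → ZMod 3} (hc : ∀ x y, c x y = c y x)
    (hN : Fintype.card V + 7 ≤ Fintype.card α) {v v' : V} (hvv : v ≠ v')
    (hadj : ¬ G.Adj v v') (htw : ∀ t, G.Adj v t ↔ G.Adj v' t) {d d' : V} (hd : G.Adj v d)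
    (hd' : G.Adj v d') (hdd : d ≠ d') (hno : ¬ ZS G c) :
    ∃ W : Finset α, FF c W ∧ Fintype.card α - 5 ≤ W.card := by
  classical
  obtain ⟨Nv, hNv⟩ : ∃ Nv : Finset V, Nv = univ.filter (fun t => G.Adj v t) := ⟨_, rfl⟩
  have memN : ∀ t, t ∈ Nv ↔ G.Adj v t := by intro t; rw [hNv]; simp
  have hvN : v ∉ Nv := by rw [memN]; exact G.irrefl
  have hv'N : v' ∉ Nv := by rw [memN]; exact hadj
  have hk : 2 ≤ Nv.card := by
    have : ({d, d'} : Finset V) ⊆ Nv := by
      intro t ht
      rw [mem_insert, mem_singleton] at ht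
      rcases ht with rfl | rfl <;> rw [memN] <;> assumption
    have := card_le_card this
    rw [card_pair hdd] at this
    exact this
  have hSc : (insert v (insert v' Nv)).card = Nv.card + 2 := by
    rw [card_insert_of_notMem, card_insert_of_notMem hv'N]
    simp [hvv, hvN]
  have hSle := card_le_univ (insert v (insert v' Nv))
  refine struct_twin hc (n := Fintype.card V) (k := Nv.card) (by omega) hN hk (by omega) ?_
  intro p q r s hpq hpr hps hqr hqs hrs
  refine ⟨0, 0, fun T hT hTc => ?_⟩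
  rw [add_zero, add_zero]
  by_contra hne
  have hne1 := left_ne_zero_of_mul hne
  have hne2 := right_ne_zero_of_mul hne
  apply hno
  obtain ⟨f, hf, hfT⟩ := place p Nv T hTc.symm
  have hmemT : ∀ a ∈ ({p, q, r, s} : Finset α), a ∉ T := by
    intro a ha h
    exact (mem_sdiff.1 (hT h)).2 ha
  have hpT := hmemT p (by simp)
  have hqT := hmemT q (by simp)
  have hrT := hmemT r (by simp)
  have hsT := hmemT s (by simp)
  obtain ⟨ψ, hψ⟩ : ∃ ψ : V → α, ψ = fun t => if t = v then p else if t = v' then r else f t :=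
    ⟨_, rfl⟩
  have p1 : ψ v = p := by rw [hψ]; simp
  have p2 : ψ v' = r := by rw [hψ]; simp [hvv.symm]
  have p3 : ∀ t ∈ Nv, ψ t = f t := by
    intro t ht
    have h1 : t ≠ v := by rintro rfl; exact hvN ht
    have h2 : t ≠ v' := by rintro rfl; exact hv'N ht
    rw [hψ]; simp [h1, h2]
  have hfin : ∀ t ∈ Nv, f t ∈ T := by
    intro t ht
    rw [← hfT]; exact mem_image_of_mem f ht
  obtain ⟨φ, hφ, hφS, hφA⟩ := extend (insert v (insert v' Nv)) ψ (by
      intro a ha b hb hab
      rw [mem_coe, mem_insert, mem_insert] at ha hb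
      rcases ha with rfl | rfl | ha <;> rcases hb with rfl | rfl | hb
      · rfl
      · rw [p1, p2] at hab; exact absurd hab hpr
      · rw [p1, p3 b hb] at hab; exact absurd (hab ▸ hfin b hb) hpT
      · rw [p1, p2] at hab; exact absurd hab.symm hpr
      · rfl
      · rw [p2, p3 b hb] at hab; exact absurd (hab ▸ hfin b hb) hrT
      · rw [p1, p3 a ha] at hab; exact absurd (hab ▸ hfin a ha) hpT
      · rw [p2, p3 a ha] at hab; exact absurd (hab ▸ hfin a ha) hrT
      · rw [p3 a ha, p3 b hb] at hab; exact hf ha hb hab) (univ \ (T ∪ {p, q, r, s})) (by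
      intro a ha
      rw [mem_insert, mem_insert] at ha
      rcases ha with rfl | rfl | ha
      · rw [p1]; simp
      · rw [p2]; simp
      · rw [p3 a ha]; simp [hfin a ha]) (by
      have e1 := le_card_sdiff (T ∪ {p, q, r, s}) (univ : Finset α)
      have e2 := card_union_le T {p, q, r, s}
      have e3 : ({p, q, r, s} : Finset α).card ≤ 4 := card_le_four
      rw [card_univ] at e1
      omega)
  have q1 : φ v = p := by rw [hφS v (by simp), p1]
  have q2 : φ v' = r := by rw [hφS v' (by simp), p2]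
  have q3 : ∀ t ∈ Nv, φ t = f t := by
    intro t ht
    rw [hφS t (by simp [ht]), p3 t ht]
  have hun : ∀ z ∈ ({p, q, r, s} : Finset α), z ≠ p → z ≠ r → ∀ t, φ t ≠ z := by
    intro z hz h1 h2 t
    by_cases t1 : t = v
    · rw [t1, q1]; exact h1.symm
    by_cases t2 : t = v'
    · rw [t2, q2]; exact h2.symm
    by_cases t3 : t ∈ Nv
    · rw [q3 t t3]; intro h; exact hmemT z hz (h ▸ hfin t t3)
    have := hφA t (by simp [t1, t2, t3])
    intro h
    rw [h, mem_sdiff] at this
    exact this.2 (mem_union_right _ hz)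
  have hD : ∀ (u : V) (a b : α), (∀ t, G.Adj u t ↔ G.Adj v t) → φ u = a →
      Ds G c φ u b = ∑ x ∈ T, gd c a b x := by
    intro u a b hu hua
    unfold Ds gd
    rw [← sum_filter, ← hfT, sum_image hf]
    have e : univ.filter (fun t => G.Adj u t) = Nv := by
      rw [hNv]; ext t; simp [hu t]
    rw [e]
    apply sum_congr rfl
    intro t ht
    rw [q3 t ht, hua]
  exact two_switch G hc hφ hvv hadj (hun q (by simp) hpq.symm hqr) (hun s (by simp) hps.symm hrs.symm)
    hqs (by rw [hD v p q (fun t => Iff.rfl) q1]; exact hne1)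
    (by rw [hD v' r s (fun t => (htw t).symm) q2]; exact hne2)

omit [DecidableEq V] [Fintype α] [DecidableEq α] in
lemma dg_eq (u : V) : dg G u = ((Set.toFinite {t | G.Adj u t}).toFinset.card : ZMod 3) := by
  classical
  unfold dg
  rw [← sum_filter, sum_const, nsmul_eq_mul, mul_one]
  congr 2
  ext t; simp

/-- Stars. -/
lemma caseStar {c : α → α → ZMod 3} (hc : ∀ x y, c x y = c y x)
    (hN : Fintype.card V + 7 ≤ Fintype.card α) (c0 : V)
    (hstar : ∀ u, u ≠ c0 → ∀ t, G.Adj u t → t = c0) (hd : ∑ u, dg G u = 0) : ZS G c := by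
  classical
  obtain ⟨Nv, hNv⟩ : ∃ Nv : Finset V, Nv = univ.filter (fun t => G.Adj c0 t) := ⟨_, rfl⟩
  have memN : ∀ t, t ∈ Nv ↔ G.Adj c0 t := by intro t; rw [hNv]; simp
  have hc0 : c0 ∉ Nv := by rw [memN]; exact G.irrefl
  -- a general formula for double sums
  have gen : ∀ h : V → V → ZMod 3, (∀ a b, h a b = h b a) →
      (∑ u, ∑ v, if G.Adj u v then h u v else 0) = 2 * ∑ t ∈ Nv, h c0 t := by
    intro h hs
    rw [← add_sum_erase univ _ (mem_univ c0)]
    have e1 : (∑ v, if G.Adj c0 v then h c0 v else 0) = ∑ t ∈ Nv, h c0 t := by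
      rw [← sum_filter, hNv]
    have e2 : ∀ u ∈ univ.erase c0, (∑ v, if G.Adj u v then h u v else 0) =
        if G.Adj c0 u then h c0 u else 0 := by
      intro u hu
      have hu' := (mem_erase.1 hu).1
      rw [← add_sum_erase univ _ (mem_univ c0)]
      have : ∑ v ∈ univ.erase c0, (if G.Adj u v then h u v else 0) = 0 := by
        apply sum_eq_zero
        intro v hv
        rw [if_neg]
        intro hadj
        exact (mem_erase.1 hv).1 (hstar u hu' v hadj)
      rw [this, add_zero]
      by_cases hh : G.Adj u c0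
      · rw [if_pos hh, if_pos hh.symm, hs]
      · rw [if_neg hh, if_neg (fun h' => hh h'.symm)]
    rw [sum_congr rfl e2, e1]
    have e3 : ∑ u ∈ univ.erase c0, (if G.Adj c0 u then h c0 u else 0) = ∑ t ∈ Nv, h c0 t := by
      rw [← e1, ← add_sum_erase univ _ (mem_univ c0), if_neg G.irrefl, zero_add]
    rw [e3]; ring
  have h3 : 3 ∣ Nv.card := by
    have e := gen (fun _ _ => 1) (fun _ _ => rfl)
    have e' : (∑ u, ∑ v, if G.Adj u v then (1 : ZMod 3) else 0) = ∑ u, dg G u := rfl
    rw [e', hd, sum_const, nsmul_eq_mul, mul_one] at e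
    rw [← ZMod.natCast_eq_zero_iff]
    rcases mul_eq_zero.1 e.symm with h | h
    · exact absurd h (by decide)
    · exact h
  obtain ⟨k, hk⟩ := h3
  obtain ⟨x⟩ : Nonempty α := Fintype.card_pos_iff.1 (by omega)
  have hcard : Nv.card + 1 ≤ Fintype.card V := by
    have := card_le_univ (insert c0 Nv)
    rw [card_insert_of_notMem hc0] at this
    exact this
  obtain ⟨T, hT, hTc, hTs⟩ := eq_triples (c x) k (univ.erase x) (by
    rw [card_erase_of_mem (mem_univ x), card_univ]; omega)
  have hxT : x ∉ T := fun h => (mem_erase.1 (hT h)).1 rfl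
  obtain ⟨f, hf, hfT⟩ := place x Nv T (by omega)
  obtain ⟨ψ, hψ⟩ : ∃ ψ : V → α, ψ = fun t => if t = c0 then x else f t := ⟨_, rfl⟩
  have p1 : ψ c0 = x := by rw [hψ]; simp
  have p3 : ∀ t ∈ Nv, ψ t = f t := by
    intro t ht
    have h1 : t ≠ c0 := by rintro rfl; exact hc0 ht
    rw [hψ]; simp [h1]
  have hfin : ∀ t ∈ Nv, f t ∈ T := by
    intro t ht
    rw [← hfT]; exact mem_image_of_mem f ht
  obtain ⟨φ, hφ, hφS, -⟩ := extend (insert c0 Nv) ψ (by
      intro a ha b hb hab
      rw [mem_coe, mem_insert] at ha hb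
      rcases ha with rfl | ha <;> rcases hb with rfl | hb
      · rfl
      · rw [p1, p3 b hb] at hab; exact absurd (hab ▸ hfin b hb) hxT
      · rw [p1, p3 a ha] at hab; exact absurd (hab ▸ hfin a ha) hxT
      · rw [p3 a ha, p3 b hb] at hab; exact hf ha hb hab) (univ \ (insert x T)) (by
      intro a ha
      rw [mem_insert] at ha
      rcases ha with rfl | ha
      · rw [p1]; simp
      · rw [p3 a ha]; simp [hfin a ha]) (by
      have e1 := le_card_sdiff (insert x T) (univ : Finset α)
      have e2 := card_insert_le x T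
      rw [card_univ] at e1
      rw [card_insert_of_notMem hc0]
      omega)
  refine ⟨φ, hφ, ?_⟩
  have e := gen (fun u v => c (φ u) (φ v)) (fun _ _ => hc _ _)
  unfold Wt
  rw [e, hφS c0 (by simp), p1]
  have e2 : ∑ t ∈ Nv, c x (φ t) = ∑ y ∈ T, c x y := by
    rw [← hfT, sum_image hf]
    apply sum_congr rfl
    intro t ht
    rw [hφS t (by simp [ht]), p3 t ht]
  have e3 := hTs (fun z => z)
  rw [e2, e3, mul_zero]

/-- All non-isolated vertices are pairwise adjacent. -/
lemma caseClique {c : α → α → ZMod 3} (hc : ∀ x y, c x y = c y x)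
    (hN : Fintype.card V + 7 ≤ Fintype.card α)
    (h11 : Fintype.card V = 3 → (∀ a b : V, a ≠ b → G.Adj a b) → 11 ≤ Fintype.card α)
    (hcl : ∀ a b s t : V, a ≠ b → G.Adj a s → G.Adj b t → G.Adj a b) (hd : ∑ u, dg G u = 0) :
    ZS G c := by
  classical
  obtain ⟨M, hM⟩ : ∃ M : Finset V, M = univ.filter (fun t => ∃ s, G.Adj t s) := ⟨_, rfl⟩
  have memM : ∀ t, t ∈ M ↔ ∃ s, G.Adj t s := by intro t; rw [hM]; simp
  have gen : ∀ h : V → V → ZMod 3, (∑ u, ∑ v, if G.Adj u v then h u v else 0) =
      ∑ u ∈ M, ∑ v ∈ M.erase u, h u v := by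
    intro h
    rw [← sum_subset (subset_univ M)]
    · apply sum_congr rfl
      intro u hu
      rw [← sum_filter]
      apply sum_congr _ (fun _ _ => rfl)
      ext t
      rw [mem_filter, mem_erase, memM]
      constructor
      · rintro ⟨-, h⟩
        exact ⟨(G.ne_of_adj h).symm, u, h.symm⟩
      · rintro ⟨h1, s, hs⟩
        obtain ⟨s', hs'⟩ := (memM u).1 hu
        exact ⟨mem_univ _, hcl u t s' s (Ne.symm h1) hs' hs⟩
    · intro u _ hu
      apply sum_eq_zero
      intro v _
      rw [if_neg]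
      intro h'
      exact hu ((memM u).2 ⟨v, h'⟩)
  have hMle := card_le_univ M
  -- enough to find a zero-sum set
  have suff : ∀ S : Finset α, S.card = M.card → FS c S = 0 → ZS G c := by
    intro S hS hF
    obtain ⟨x⟩ : Nonempty α := Fintype.card_pos_iff.1 (by omega)
    obtain ⟨f, hf, hfT⟩ := place x M S hS.symm
    have hfin : ∀ t ∈ M, f t ∈ S := by
      intro t ht
      rw [← hfT]; exact mem_image_of_mem f ht
    obtain ⟨φ, hφ, hφS, -⟩ := extend M f hf (univ \ S) (by
        intro a ha; simp [hfin a ha]) (by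
        have e1 := le_card_sdiff S (univ : Finset α)
        rw [card_univ] at e1
        omega)
    refine ⟨φ, hφ, ?_⟩
    have himg : M.image φ = S := by
      rw [← hfT]
      exact image_congr (fun t ht => hφS t ht)
    have e := gen (fun u v => c (φ u) (φ v))
    unfold Wt
    rw [e]
    have e2 : ∑ u ∈ M, ∑ v ∈ M.erase u, c (φ u) (φ v) = ∑ x ∈ S, ∑ y ∈ S.erase x, c x y := by
      rw [← himg, sum_image hφ.injOn]
      apply sum_congr rfl
      intro u _
      rw [← image_erase hφ, sum_image hφ.injOn]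
    rw [e2]
    unfold FS at hF
    rcases mul_eq_zero.1 hF with h | h
    · exact absurd h (by decide)
    · exact h
  by_cases hM0 : M.card = 0
  · apply suff ∅ (by rw [hM0, card_empty])
    simp [FS]
  -- the number of vertices
  have hmod : M.card % 3 = 0 ∨ M.card % 3 = 1 := by
    have e := gen (fun _ _ => 1)
    have e' : (∑ u, ∑ v, if G.Adj u v then (1 : ZMod 3) else 0) = ∑ u, dg G u := rfl
    have e2 : ∑ u ∈ M, ∑ v ∈ M.erase u, (1 : ZMod 3) = ((M.card * (M.card - 1) : ℕ) : ZMod 3) := by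
      have : ∀ u ∈ M, ∑ v ∈ M.erase u, (1 : ZMod 3) = ((M.card - 1 : ℕ) : ZMod 3) := by
        intro u hu
        rw [sum_const, card_erase_of_mem hu, nsmul_eq_mul, mul_one]
      rw [sum_congr rfl this, sum_const, nsmul_eq_mul, Nat.cast_mul]
    rw [e', hd, e2] at e
    have h3 : 3 ∣ M.card * (M.card - 1) := (ZMod.natCast_eq_zero_iff _ _).1 e.symm
    rcases (Nat.Prime.dvd_mul (by norm_num)).1 h3 with h | h <;> omega
  have hM1 : M.card ≠ 1 := by
    intro h
    obtain ⟨a, ha⟩ := card_eq_one.1 h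
    obtain ⟨s, hs⟩ := (memM a).1 (by rw [ha]; simp)
    have hsM : s ∈ M := (memM s).2 ⟨a, hs.symm⟩
    rw [ha, mem_singleton] at hsM
    exact G.ne_of_adj hs hsM.symm
  by_cases hM3 : M.card = 3
  · have hα : 11 ≤ Fintype.card α := by
      by_cases hV : Fintype.card V = 3
      · apply h11 hV
        intro a b hab
        have hMu : M = univ := by
          rw [← card_eq_iff_eq_univ, hM3, hV]
        obtain ⟨s, hs⟩ := (memM a).1 (by rw [hMu]; simp)
        obtain ⟨t, ht⟩ := (memM b).1 (by rw [hMu]; simp)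
        exact hcl a b s t hab hs ht
      · omega
    obtain ⟨x, y, z, hxy, hxz, hyz, h⟩ := tri11 hc hα
    apply suff {x, y, z}
    · rw [card_insert_of_notMem (by simp [hxy, hxz]), card_pair hyz, hM3]
    · rw [FS_insert hc (by simp [hxy, hxz]), FS_insert hc (by simp [hyz]), sum_pair hyz,
        sum_singleton]
      have : FS c {z} = 0 := by simp [FS]
      rw [this]; linear_combination h
  have hm4 : 4 ≤ M.card := by omega
  by_contra hno
  have hz : ∀ S : Finset α, S.card = M.card → FS c S ≠ 0 := fun S hS h => hno (suff S hS h)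
  rcases struct_clique hc hm4 (by omega) hz with ⟨W, hW, hWc⟩ | ⟨W, a, g, ν, hWc, h⟩
  · exact hno (ZS_of_flat G hc hd hW (by omega) (by omega))
  · obtain ⟨S, hS, hS0⟩ := rank_zero hm4 hmod (by omega) h
    exact hz S hS hS0

/-- The upper bound. -/
theorem upper {c : α → α → ZMod 3} (hc : ∀ x y, c x y = c y x)
    (hN : Fintype.card V + 7 ≤ Fintype.card α)
    (h11 : Fintype.card V = 3 → (∀ a b : V, a ≠ b → G.Adj a b) → 11 ≤ Fintype.card α)
    (hd : ∑ u, dg G u = 0) : ZS G c := by
  by_contra hno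
  -- nonadjacent non-isolated vertices are twins
  have tw : ∀ v v' s t : V, v ≠ v' → ¬ G.Adj v v' → G.Adj v s → G.Adj v' t →
      ∀ u, G.Adj v u ↔ G.Adj v' u := by
    intro v v' s t hvv hadj hs ht u
    by_contra hu
    by_cases h1 : G.Adj v u
    · have h2 : ¬ G.Adj v' u := fun h2 => hu ⟨fun _ => h2, fun _ => h1⟩
      obtain ⟨W, hW, hWc⟩ := caseI G hc (by omega) hvv.symm (fun h => hadj h.symm) h1 h2 ht hno
      have hV : 1 ≤ Fintype.card V := Fintype.card_pos_iff.2 ⟨v⟩
      exact hno (ZS_of_flat G hc hd hW (by omega) hV)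
    · have h2 : G.Adj v' u := by
        by_contra h2
        exact hu ⟨fun h => absurd h h1, fun h => absurd h h2⟩
      obtain ⟨W, hW, hWc⟩ := caseI G hc (by omega) hvv hadj h2 h1 hs hno
      have hV : 1 ≤ Fintype.card V := Fintype.card_pos_iff.2 ⟨v⟩
      exact hno (ZS_of_flat G hc hd hW (by omega) hV)
  -- their degree is one
  have one : ∀ v v' s t : V, v ≠ v' → ¬ G.Adj v v' → G.Adj v s → G.Adj v' t →
      ∀ u, G.Adj v u → u = s := by
    intro v v' s t hvv hadj hs ht u hu
    by_contra hus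
    obtain ⟨W, hW, hWc⟩ := caseII G hc hN hvv hadj (tw v v' s t hvv hadj hs ht) hu hs hus hno
    have hV : 1 ≤ Fintype.card V := Fintype.card_pos_iff.2 ⟨v⟩
    exact hno (ZS_of_flat G hc hd hW (by omega) hV)
  by_cases hcl : ∀ a b s t : V, a ≠ b → G.Adj a s → G.Adj b t → G.Adj a b
  · exact hno (caseClique G hc hN h11 hcl hd)
  push Not at hcl
  obtain ⟨a, b, s, t, hab, has, hbt, hadj⟩ := hcl
  -- the centre is `s`
  have ha := one a b s t hab hadj has hbt
  apply hno
  refine caseStar G hc hN s ?_ hd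
  intro u hus w huw
  by_cases hua : u = a
  · rw [hua] at huw; exact ha w huw
  have hau : ¬ G.Adj u a := fun h => hus (ha u h.symm)
  have h1 := tw u a w s hua hau huw has
  exact ha w ((h1 w).1 huw)

end cases

end Pool.Agent.Work.MP_2da030_co
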