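import Pool.Agent.Work.MP_2da030_co.G

set_option autoImplicit false

open Finset

namespace Pool.Agent.Work.MP_2da030_co

/-- Double sums over adjacent pairs and sums over edges. -/
lemma sum_edges {V : Type*} [Fintype V] [DecidableEq V] (G : SimpleGraph V) [DecidableRel G.Adj]
    (F : Sym2 V → ZMod 3) :
    (∑ u, ∑ v, if G.Adj u v then F s(u, v) else 0) = 2 * ∑ e ∈ G.edgeFinset, F e := by
  have h1 : (∑ u, ∑ v, if G.Adj u v then F s(u, v) else 0) =
      ∑ p ∈ (univ : Finset (V × V)).filter (fun p => G.Adj p.1 p.2), F s(p.1, p.2) := by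
    rw [sum_filter, ← univ_product_univ, sum_product]
  rw [h1, mul_sum]
  have h2 : ∀ p ∈ (univ : Finset (V × V)).filter (fun p => G.Adj p.1 p.2),
      s(p.1, p.2) ∈ G.edgeFinset := by
    intro p hp
    rw [SimpleGraph.mem_edgeFinset, SimpleGraph.mem_edgeSet]
    exact (mem_filter.1 hp).2
  rw [← sum_fiberwise_of_maps_to h2]
  apply sum_congr rfl
  intro e he
  induction e using Sym2.ind with
  | _ a b =>
    rw [SimpleGraph.mem_edgeFinset, SimpleGraph.mem_edgeSet] at he
    have hab : a ≠ b := G.ne_of_adj he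
    have h3 : ((univ : Finset (V × V)).filter (fun p => G.Adj p.1 p.2)).filter
        (fun p => s(p.1, p.2) = s(a, b)) = {(a, b), (b, a)} := by
      ext ⟨x, y⟩
      simp only [mem_filter, mem_univ, true_and, mem_insert, mem_singleton, Sym2.eq_iff,
        Prod.mk.injEq]
      constructor
      · rintro ⟨-, h⟩; exact h
      · rintro (⟨rfl, rfl⟩ | ⟨rfl, rfl⟩)
        · exact ⟨he, Or.inl ⟨rfl, rfl⟩⟩
        · exact ⟨he.symm, Or.inr ⟨rfl, rfl⟩⟩
    rw [h3, sum_pair (by simp [hab]), Sym2.eq_swap (a := b) (b := a)]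
    ring

/-- Transfer of the upper bound. -/
lemma upper_fin {n N : ℕ} (G : SimpleGraph (Fin n)) [DecidableRel G.Adj]
    (h3 : 3 ∣ G.edgeFinset.card) (hN : n + 7 ≤ N)
    (h11 : n = 3 → (∀ a b : Fin n, a ≠ b → G.Adj a b) → 11 ≤ N) (f : Sym2 (Fin N) → ZMod 3) :
    ∃ φ : Fin n ↪ Fin N, ∑ e ∈ G.edgeFinset, f (e.map φ) = 0 := by
  have hd : ∑ u, dg G u = 0 := by
    have := sum_edges G (fun _ => 1)
    rw [sum_const, nsmul_eq_mul, mul_one, (ZMod.natCast_eq_zero_iff _ _).2 h3, mul_zero] at this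
    rw [← this]
    unfold dg
    apply sum_congr rfl
    intro u _
    apply sum_congr rfl
    intro v _
    by_cases h : G.Adj u v
    · rw [if_pos h, if_pos h]
    · rw [if_neg h, if_neg h]
  obtain ⟨φ, hφ, h⟩ := upper G (c := fun x y => f s(x, y)) (fun x y => by rw [Sym2.eq_swap])
    (by simpa using hN) (by simpa using h11) hd
  refine ⟨⟨φ, hφ⟩, ?_⟩
  have e := sum_edges G (fun e => f (e.map φ))
  have e2 : (∑ u, ∑ v, if G.Adj u v then f (Sym2.map φ s(u, v)) else 0) =
      Wt G (fun x y => f s(x, y)) φ := by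
    unfold Wt
    apply sum_congr rfl
    intro u _
    apply sum_congr rfl
    intro v _
    by_cases h : G.Adj u v
    · rw [if_pos h, if_pos h, Sym2.map_mk]
    · rw [if_neg h, if_neg h]
  rw [e2, h] at e
  rcases mul_eq_zero.1 e.symm with h | h
  · exact absurd h (by decide)
  · exact h

/-- A colouring of `K_10` without zero-sum triangles. -/
def col (a b : Fin 10) : ZMod 3 :=
  if a.val / 2 = b.val / 2 then 2
  else if (a.val / 2 + 1) % 5 = b.val / 2 ∨ (b.val / 2 + 1) % 5 = a.val / 2 then 0 else 1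

lemma col_symm : ∀ a b, col a b = col b a := by decide +kernel

lemma col_tri : ∀ x y z : Fin 10, x ≠ y → x ≠ z → y ≠ z → col x y + col x z + col y z ≠ 0 := by
  decide +kernel

/-- The colouring as a function on unordered pairs. -/
def colS : Sym2 (Fin 10) → ZMod 3 := Sym2.lift ⟨col, col_symm⟩

lemma lower10 (G : SimpleGraph (Fin 3)) [DecidableRel G.Adj]
    (hG : ∀ a b : Fin 3, a ≠ b → G.Adj a b) (φ : Fin 3 ↪ Fin 10) :
    ∑ e ∈ G.edgeFinset, colS (e.map φ) ≠ 0 := by
  intro h
  have e := sum_edges G (fun e => colS (e.map φ))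
  rw [h, mul_zero] at e
  simp only [Fin.sum_univ_three, Sym2.map_mk] at e
  rw [if_neg G.irrefl, if_neg G.irrefl, if_neg G.irrefl, if_pos (hG 0 1 (by decide)),
    if_pos (hG 0 2 (by decide)), if_pos (hG 1 0 (by decide)), if_pos (hG 1 2 (by decide)),
    if_pos (hG 2 0 (by decide)), if_pos (hG 2 1 (by decide))] at e
  have g : ∀ a b : Fin 10, colS s(a, b) = col a b := fun a b => rfl
  rw [g, g, g, g, g, g, col_symm (φ 1) (φ 0), col_symm (φ 2) (φ 0), col_symm (φ 2) (φ 1)] at e
  have h01 : φ 0 ≠ φ 1 := fun h => absurd (φ.injective h) (by decide)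
  have h02 : φ 0 ≠ φ 2 := fun h => absurd (φ.injective h) (by decide)
  have h12 : φ 1 ≠ φ 2 := fun h => absurd (φ.injective h) (by decide)
  apply col_tri _ _ _ h01 h02 h12
  have h2 : (2 : ZMod 3) * (col (φ 0) (φ 1) + col (φ 0) (φ 2) + col (φ 1) (φ 2)) = 0 := by
    rw [← e]; ring
  rcases mul_eq_zero.1 h2 with h | h
  · exact absurd h (by decide)
  · exact h

end Pool.Agent.Work.MP_2da030_co
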